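import Mathlib

set_option autoImplicit false

open Set Filter Topology MeasureTheory

namespace Pool.Agent.X219.PB

section

variable {Ω P ι : Type} [MeasurableSpace Ω] [TopologicalSpace P] (V : ι → Set P)

/-- the open set coded by `a` at the parameter `c` -/
def Op (a : ι → Set Ω) (c : Ω) : Set P := ⋃ i, ⋃ (_ : c ∈ a i), V i

theorem mem_Op {a : ι → Set Ω} {c : Ω} {p : P} : p ∈ Op V a c ↔ ∃ i, c ∈ a i ∧ p ∈ V i := by
  simp [Op]

/-- Borel sets in the product that are, uniformly in the parameter, equal to an open set modulo the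
complement of an intersection of dense open sets. -/
def Good (E : Set (Ω × P)) : Prop :=
  ∃ a : ι → Set Ω, (∀ i, MeasurableSet (a i)) ∧ ∃ b : ℕ → ι → Set Ω,
    (∀ n i, MeasurableSet (b n i)) ∧ (∀ n c, Dense (Op V (b n) c)) ∧
      ∀ c p, (∀ n, p ∈ Op V (b n) c) → ((c, p) ∈ E ↔ p ∈ Op V a c)

variable {V}

theorem good_compl [Countable ι] (hV : TopologicalSpace.IsTopologicalBasis (range V))
    {E : Set (Ω × P)} (hE : Good V E) : Good V Eᶜ := by
  classical
  obtain ⟨a, ha, b, hb, hd, h⟩ := hE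
  set a' : ι → Set Ω := fun j => {c | ∀ i, c ∈ a i → Disjoint (V i) (V j)} with ha'
  have ha'm : ∀ j, MeasurableSet (a' j) := by
    intro j
    have : a' j = ⋂ i, ((a i)ᶜ ∪ {_c : Ω | Disjoint (V i) (V j)}) := by
      ext c
      simp only [ha', mem_iInter, mem_union, mem_compl_iff, mem_ofPred_eq]
      refine forall_congr' fun i => ?_
      tauto
    rw [this]
    exact MeasurableSet.iInter fun i => (ha i).compl.union (MeasurableSet.const _)
  refine ⟨a', ha'm, fun n => match n with
    | 0 => fun j => a j ∪ a' j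
    | n + 1 => b n, ?_, ?_, ?_⟩
  · intro n i
    cases n with
    | zero => exact (ha i).union (ha'm i)
    | succ n => exact hb n i
  · intro n c
    cases n with
    | zero =>
      rw [hV.dense_iff]
      rintro _ ⟨j, rfl⟩ hne
      by_cases hdis : ∀ i, c ∈ a i → Disjoint (V i) (V j)
      · obtain ⟨p, hp⟩ := hne
        exact ⟨p, hp, (mem_Op V).2 ⟨j, Or.inr hdis, hp⟩⟩
      · push Not at hdis
        obtain ⟨i, hci, hij⟩ := hdis
        rw [Set.not_disjoint_iff] at hij
        obtain ⟨p, hpi, hpj⟩ := hij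
        exact ⟨p, hpj, (mem_Op V).2 ⟨i, Or.inl hci, hpi⟩⟩
    | succ n => exact hd n c
  · intro c p hp
    have h0 := hp 0
    have hs : ∀ n, p ∈ Op V (b n) c := fun n => hp (n + 1)
    rw [mem_compl_iff, h c p hs]
    rw [mem_Op] at h0
    obtain ⟨j, hj, hpj⟩ := h0
    constructor
    · intro hnot
      rcases hj with hj | hj
      · exact absurd ((mem_Op V).2 ⟨j, hj, hpj⟩) hnot
      · exact (mem_Op V).2 ⟨j, hj, hpj⟩
    · intro h1 h2
      rw [mem_Op] at h1 h2
      obtain ⟨j, hj, hpj⟩ := h1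
      obtain ⟨i, hi, hpi⟩ := h2
      exact (Set.disjoint_left.1 (hj i hi)) hpi hpj

theorem good_iUnion [Countable ι] {E : ℕ → Set (Ω × P)} (hE : ∀ k, Good V (E k)) :
    Good V (⋃ k, E k) := by
  choose a ha b hb hd h using hE
  refine ⟨fun j => ⋃ k, a k j, fun j => MeasurableSet.iUnion fun k => ha k j,
    fun n => b (Nat.unpair n).1 (Nat.unpair n).2, fun n i => hb _ _ i, fun n c => hd _ _ c, ?_⟩
  intro c p hp
  have hp' : ∀ k n, p ∈ Op V (b k n) c := by
    intro k n
    have := hp (Nat.pair k n)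
    simpa using this
  simp only [mem_iUnion]
  constructor
  · rintro ⟨k, hk⟩
    rw [h k c p (hp' k), mem_Op] at hk
    obtain ⟨i, hi, hpi⟩ := hk
    exact (mem_Op V).2 ⟨i, mem_iUnion.2 ⟨k, hi⟩, hpi⟩
  · intro hp2
    rw [mem_Op] at hp2
    obtain ⟨i, hi, hpi⟩ := hp2
    obtain ⟨k, hk⟩ := mem_iUnion.1 hi
    exact ⟨k, (h k c p (hp' k)).2 ((mem_Op V).2 ⟨i, hk, hpi⟩)⟩

theorem trivial_dense (hV : TopologicalSpace.IsTopologicalBasis (range V)) (c : Ω) :
    Dense (Op V (fun _ : ι => (univ : Set Ω)) c) := by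
  intro p
  apply subset_closure
  obtain ⟨_, ⟨i, rfl⟩, hpi, _⟩ := hV.exists_subset_of_mem_open (mem_univ p) isOpen_univ
  exact (mem_Op V).2 ⟨i, mem_univ c, hpi⟩

theorem good_fst (hV : TopologicalSpace.IsTopologicalBasis (range V)) {A : Set Ω}
    (hA : MeasurableSet A) : Good V (Prod.fst ⁻¹' A : Set (Ω × P)) := by
  refine ⟨fun _ => A, fun _ => hA, fun _ _ => univ, fun _ _ => MeasurableSet.univ,
    fun _ c => trivial_dense hV c, ?_⟩
  intro c p _
  constructor
  · intro hc
    obtain ⟨_, ⟨i, rfl⟩, hpi, _⟩ := hV.exists_subset_of_mem_open (mem_univ p) isOpen_univ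
    exact (mem_Op V).2 ⟨i, hc, hpi⟩
  · intro hp
    rw [mem_Op] at hp
    obtain ⟨i, hi, _⟩ := hp
    exact hi

theorem good_open (hV : TopologicalSpace.IsTopologicalBasis (range V)) {O : Set P}
    (hO : IsOpen O) : Good V (Prod.snd ⁻¹' O : Set (Ω × P)) := by
  classical
  refine ⟨fun i => {_c | V i ⊆ O}, fun _ => MeasurableSet.const _, fun _ _ => univ,
    fun _ _ => MeasurableSet.univ, fun _ c => trivial_dense hV c, ?_⟩
  intro c p _
  constructor
  · intro hp
    obtain ⟨_, ⟨i, rfl⟩, hpi, hsub⟩ := hV.exists_subset_of_mem_open (show p ∈ O from hp) hO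
    exact (mem_Op V).2 ⟨i, hsub, hpi⟩
  · intro hp
    rw [mem_Op] at hp
    obtain ⟨i, hi, hpi⟩ := hp
    exact hi hpi

theorem good_of_measurable [Countable ι] [MeasurableSpace P] [BorelSpace P]
    (hV : TopologicalSpace.IsTopologicalBasis (range V)) {E : Set (Ω × P)}
    (hE : MeasurableSet E) : Good V E := by
  let m : MeasurableSpace (Ω × P) :=
    { MeasurableSet' := Good V
      measurableSet_empty := by
        have := good_fst (V := V) hV (MeasurableSet.empty (α := Ω))
        simpa using this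
      measurableSet_compl := fun s hs => good_compl hV hs
      measurableSet_iUnion := fun f hf => good_iUnion hf }
  have hle : (Prod.instMeasurableSpace : MeasurableSpace (Ω × P)) ≤ m := by
    refine sup_le ?_ ?_
    · rintro _ ⟨A, hA, rfl⟩
      exact good_fst hV hA
    · rw [BorelSpace.measurable_eq (α := P), borel, MeasurableSpace.comap_generateFrom]
      refine MeasurableSpace.generateFrom_le ?_
      rintro _ ⟨O, hO, rfl⟩
      exact good_open hV hO
  exact hle E hE

/-- If the sections are meagre, they avoid an intersection of dense open sets depending on the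
parameter in a Borel way. -/
theorem exists_avoiding [Countable ι] [MeasurableSpace P] [BorelSpace P] [BaireSpace P]
    (hV : TopologicalSpace.IsTopologicalBasis (range V)) {E : Set (Ω × P)}
    (hE : MeasurableSet E) :
    ∃ b : ℕ → ι → Set Ω, (∀ n i, MeasurableSet (b n i)) ∧ (∀ n c, Dense (Op V (b n) c)) ∧
      ∀ c, (∀ᶠ p in residual P, (c, p) ∉ E) → ∀ p, (∀ n, p ∈ Op V (b n) c) → (c, p) ∉ E := by
  obtain ⟨a, ha, b, hb, hd, h⟩ := good_of_measurable hV hE
  refine ⟨b, hb, hd, ?_⟩
  intro c hc p hp hpE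
  rw [h c p hp] at hpE
  have hopen : ∀ a : ι → Set Ω, IsOpen (Op V a c) := fun a =>
    isOpen_iUnion fun i => isOpen_iUnion fun _ => hV.isOpen ⟨i, rfl⟩
  have hres : ∀ᶠ q in residual P, ∀ n, q ∈ Op V (b n) c := by
    rw [eventually_countable_forall]
    intro n
    exact residual_of_dense_open (hopen _) (hd n c)
  obtain ⟨q, hq, hq1, hq2⟩ := (dense_of_mem_residual (hc.and hres)).inter_open_nonempty
    (Op V a c) (hopen a) ⟨p, hpE⟩
  exact hq1 ((h c q hq2).2 hq)

end

end Pool.Agent.X219.PB
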