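import Mathlib
import Pool.Agent.X219.ParamBaire

set_option autoImplicit false

open Set Filter Topology MeasureTheory

namespace Pool.Agent.X219.FS

open Pool.Agent.X219.PB

/-- Cantor space -/
abbrev C : Type := ℕ → Bool

/-- cylinder of a finite binary string -/
def cyl (w : List Bool) : Set C := {u | ∀ i, (h : i < w.length) → u i = w[i]}

/-- initial segment -/
def pre (u : C) (n : ℕ) : List Bool := List.ofFn (fun i : Fin n => u i)

theorem length_pre (u : C) (n : ℕ) : (pre u n).length = n := by simp [pre]

theorem mem_cyl_pre (u : C) (n : ℕ) : u ∈ cyl (pre u n) := by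
  intro i h
  simp [pre]

theorem cyl_mono {w w' : List Bool} (h : w <+: w') : cyl w' ⊆ cyl w := by
  obtain ⟨t, rfl⟩ := h
  intro u hu i hi
  rw [hu i (by simp; omega)]
  rw [List.getElem_append_left hi]

theorem prefix_pre {w : List Bool} {u : C} (hu : u ∈ cyl w) {n : ℕ} (hn : w.length ≤ n) :
    w <+: pre u n := by
  rw [List.prefix_iff_eq_take]
  apply List.ext_getElem
  · simp [pre, hn]
  · intro i h1 h2
    simp only [pre, List.getElem_take, List.getElem_ofFn]
    exact (hu i h1).symm

theorem isOpen_cyl (w : List Bool) : IsOpen (cyl w) := by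
  have : cyl w = ⋂ i : Fin w.length, (fun u : C => u i) ⁻¹' {w[i]} := by
    ext u
    simp only [cyl, mem_ofPred_eq, mem_iInter, mem_preimage, mem_singleton_iff]
    exact ⟨fun h i => h i i.2, fun h i hi => h ⟨i, hi⟩⟩
  rw [this]
  refine isOpen_iInter_of_finite fun i => ?_
  exact (isOpen_discrete ({w[i]} : Set Bool)).preimage (continuous_apply (A := fun _ : ℕ => Bool) _)

theorem nonempty_cyl (w : List Bool) : (cyl w).Nonempty := by
  refine ⟨fun i => w.getD i false, ?_⟩
  intro i hi
  simp [hi]

theorem basis_cyl : TopologicalSpace.IsTopologicalBasis (range cyl) := by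
  refine TopologicalSpace.isTopologicalBasis_of_isOpen_of_nhds ?_ ?_
  · rintro _ ⟨w, rfl⟩
    exact isOpen_cyl w
  · intro u O hu hO
    obtain ⟨I, v, hv, hsub⟩ := isOpen_pi_iff.1 hO u hu
    refine ⟨cyl (pre u (I.sup id + 1)), ⟨_, rfl⟩, mem_cyl_pre _ _, ?_⟩
    intro z hz
    apply hsub
    intro i hi
    have hi' : i ≤ I.sup id := Finset.le_sup (f := id) hi
    have h1 : z i = u i := by
      have := hz i (by rw [length_pre]; omega)
      rw [this]
      simp only [pre, List.getElem_ofFn]
    rw [h1]
    exact (hv i hi).2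

/-- basic open sets of the square -/
def V2 (i : List Bool × List Bool) : Set (C × C) := cyl i.1 ×ˢ cyl i.2

theorem basis_V2 : TopologicalSpace.IsTopologicalBasis (range V2) := by
  have h := basis_cyl.prod basis_cyl
  convert h using 1
  ext s
  constructor
  · rintro ⟨⟨a, b⟩, rfl⟩
    exact ⟨cyl a, ⟨a, rfl⟩, cyl b, ⟨b, rfl⟩, rfl⟩
  · rintro ⟨_, ⟨a, rfl⟩, _, ⟨b, rfl⟩, rfl⟩
    exact ⟨(a, b), rfl⟩

/-- finite approximations: a string for each binary string of length `n` -/
abbrev St (n : ℕ) : Type := (Fin n → Bool) → List Bool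

/-- drop the last bit -/
def ini {n : ℕ} (s : Fin (n + 1) → Bool) : Fin n → Bool := fun i => s i.castSucc

section

variable {Ω : Type} [MeasurableSpace Ω] (b : ℕ → (List Bool × List Bool) → Set Ω)

/-- the requirement on the next approximation -/
def Step (n : ℕ) (c : Ω) (T : St n) (T' : St (n + 1)) : Prop :=
  (∀ s, T (ini s) ++ [false, s (Fin.last n)] <+: T' s) ∧
  ∀ s t, s ≠ t → ∀ k ≤ n, ∃ i, c ∈ b k i ∧ cyl (T' s) ×ˢ cyl (T' t) ⊆ V2 i

theorem exists_step (c : Ω) (hd : ∀ k, Dense (Op V2 (b k) c)) (n : ℕ) (T : St n) :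
    ∃ T' : St (n + 1), Step b n c T T' := by
  classical
  have key : ∀ F : Finset ((Fin (n + 1) → Bool) × (Fin (n + 1) → Bool) × ℕ),
      ∃ T' : St (n + 1), (∀ s, T (ini s) ++ [false, s (Fin.last n)] <+: T' s) ∧
        ∀ q ∈ F, q.1 ≠ q.2.1 → ∃ i, c ∈ b q.2.2 i ∧ cyl (T' q.1) ×ˢ cyl (T' q.2.1) ⊆ V2 i := by
    intro F
    induction F using Finset.induction_on with
    | empty =>
      exact ⟨fun s => T (ini s) ++ [false, s (Fin.last n)], fun s => List.prefix_rfl, by simp⟩
    | insert q F hq ih =>
      obtain ⟨T₂, h1, h2⟩ := ih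
      obtain ⟨s, t, k⟩ := q
      by_cases hst : s = t
      · refine ⟨T₂, h1, ?_⟩
        intro q' hq' hne
        rw [Finset.mem_insert] at hq'
        rcases hq' with rfl | hq'
        · exact absurd hst hne
        · exact h2 q' hq' hne
      · obtain ⟨⟨u, u'⟩, ⟨hu, hu'⟩, hop⟩ := (hd k).inter_open_nonempty
          (cyl (T₂ s) ×ˢ cyl (T₂ t)) ((isOpen_cyl _).prod (isOpen_cyl _))
          ((nonempty_cyl _).prod (nonempty_cyl _))
        rw [mem_Op] at hop
        obtain ⟨i, hci, hui, hui'⟩ := hop
        simp only at hu hu' hui hui'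
        set N := max (max (T₂ s).length (T₂ t).length) (max i.1.length i.2.length) with hN
        set T₃ : St (n + 1) := Function.update (Function.update T₂ s (pre u N)) t (pre u' N)
          with hT₃
        have hs3 : T₃ s = pre u N := by
          rw [hT₃, Function.update_of_ne hst, Function.update_self]
        have ht3 : T₃ t = pre u' N := by
          rw [hT₃, Function.update_self]
        have hle : ∀ r, T₂ r <+: T₃ r := by
          intro r
          by_cases hrt : r = t
          · subst hrt
            rw [ht3]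
            exact prefix_pre hu' (le_trans (le_max_right _ _) (le_max_left _ _))
          · by_cases hrs : r = s
            · subst hrs
              rw [hs3]
              exact prefix_pre hu (le_trans (le_max_left _ _) (le_max_left _ _))
            · rw [hT₃, Function.update_of_ne hrt, Function.update_of_ne hrs]
        refine ⟨T₃, fun r => (h1 r).trans (hle r), ?_⟩
        intro q' hq' hne
        rw [Finset.mem_insert] at hq'
        rcases hq' with rfl | hq'
        · refine ⟨i, hci, ?_⟩
          simp only
          rw [hs3, ht3]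
          refine Set.prod_mono ?_ ?_
          · exact cyl_mono (prefix_pre hui (le_trans (le_max_left _ _) (le_max_right _ _)))
          · exact cyl_mono (prefix_pre hui' (le_trans (le_max_right _ _) (le_max_right _ _)))
        · obtain ⟨j, hj, hsub⟩ := h2 q' hq' hne
          exact ⟨j, hj, (Set.prod_mono (cyl_mono (hle _)) (cyl_mono (hle _))).trans hsub⟩
  obtain ⟨T', h1, h2⟩ := key (Finset.univ ×ˢ Finset.univ ×ˢ Finset.range (n + 1))
  refine ⟨T', h1, ?_⟩
  intro s t hst k hk
  exact h2 (s, t, k) (by simp; omega) hst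

theorem select {τ : Type} [Countable τ] (P : Ω → τ → Prop) (hP : ∀ c, ∃ t, P c t)
    (hm : ∀ t, MeasurableSet {c | P c t}) :
    ∃ T : Ω → τ, (∀ t, MeasurableSet {c | T c = t}) ∧ ∀ c, P c (T c) := by
  classical
  have := Encodable.ofCountable τ
  have hp : ∀ c, ∃ n, ∃ t, Encodable.encode t = n ∧ P c t := by
    intro c
    obtain ⟨t, ht⟩ := hP c
    exact ⟨_, t, rfl, ht⟩
  have hmeas : Measurable fun c => Nat.find (hp c) := by
    refine measurable_find hp ?_
    intro k
    have : {c | ∃ t, Encodable.encode t = k ∧ P c t}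
        = ⋃ t : τ, ({_c : Ω | Encodable.encode t = k} ∩ {c | P c t}) := by
      ext c
      simp
    rw [this]
    exact MeasurableSet.iUnion fun t => (MeasurableSet.const _).inter (hm t)
  choose T hT using fun c => Nat.find_spec (hp c)
  refine ⟨T, ?_, fun c => (hT c).2⟩
  intro t
  have : {c | T c = t} = (fun c => Nat.find (hp c)) ⁻¹' {Encodable.encode t} := by
    ext c
    simp only [mem_ofPred_eq, mem_preimage, mem_singleton_iff]
    rw [← (hT c).1, Encodable.encode_inj]
  rw [this]
  exact hmeas (measurableSet_singleton _)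

theorem measurable_step (hb : ∀ k i, MeasurableSet (b k i)) (n : ℕ) (T : St n)
    (T' : St (n + 1)) : MeasurableSet {c | Step b n c T T'} := by
  have : {c | Step b n c T T'} = {_c : Ω | ∀ s, T (ini s) ++ [false, s (Fin.last n)] <+: T' s} ∩
      ⋂ s : Fin (n + 1) → Bool, ⋂ t : Fin (n + 1) → Bool, ⋂ _ : s ≠ t, ⋂ k : ℕ, ⋂ _ : k ≤ n,
        ⋃ i, (b k i ∩ {_c : Ω | cyl (T' s) ×ˢ cyl (T' t) ⊆ V2 i}) := by
    ext c
    simp only [Step, mem_inter_iff, mem_iInter, mem_iUnion, mem_ofPred_eq]
  rw [this]
  refine (MeasurableSet.const _).inter ?_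
  refine MeasurableSet.iInter fun s => MeasurableSet.iInter fun t => MeasurableSet.iInter fun _ =>
    MeasurableSet.iInter fun k => MeasurableSet.iInter fun _ => MeasurableSet.iUnion fun i => ?_
  exact (hb k i).inter (MeasurableSet.const _)

theorem exists_sequence (hb : ∀ k i, MeasurableSet (b k i)) (hd : ∀ k c, Dense (Op V2 (b k) c)) :
    ∃ T : (n : ℕ) → Ω → St n, (∀ n t, MeasurableSet {c | T n c = t}) ∧
      ∀ n c, Step b n c (T n c) (T (n + 1) c) := by
  have hstep : ∀ (n : ℕ) (T : {T : Ω → St n // ∀ t, MeasurableSet {c | T c = t}}),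
      ∃ T' : {T : Ω → St (n + 1) // ∀ t, MeasurableSet {c | T c = t}},
        ∀ c, Step b n c (T.1 c) (T'.1 c) := by
    rintro n ⟨T, hT⟩
    obtain ⟨T', h1, h2⟩ := select (fun c t' => Step b n c (T c) t')
      (fun c => exists_step b c (fun k => hd k c) n (T c)) (by
        intro t'
        have : {c | Step b n c (T c) t'} = ⋃ t : St n, ({c | T c = t} ∩ {c | Step b n c t t'}) := by
          ext c
          simp
        rw [this]
        exact MeasurableSet.iUnion fun t => (hT t).inter (measurable_step b hb n t t'))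
    exact ⟨⟨T', h1⟩, h2⟩
  choose F hF using hstep
  let T : (n : ℕ) → {T : Ω → St n // ∀ t, MeasurableSet {c | T c = t}} := fun n =>
    Nat.rec (motive := fun n => {T : Ω → St n // ∀ t, MeasurableSet {c | T c = t}})
      ⟨fun _ _ => [], fun t => MeasurableSet.const _⟩ (fun n T => F n T) n
  exact ⟨fun n => (T n).1, fun n => (T n).2, fun n c => hF n (T n) c⟩

end

/-- restriction of a point of Cantor space -/
def res (y : C) (n : ℕ) : Fin n → Bool := fun i => y i

theorem ini_res (y : C) (n : ℕ) : ini (res y (n + 1)) = res y n := rfl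

/-- Parametrized Mycielski theorem. -/
theorem mycielski {Ω : Type} [MeasurableSpace Ω] (b : ℕ → (List Bool × List Bool) → Set Ω)
    (hb : ∀ k i, MeasurableSet (b k i)) (hd : ∀ k c, Dense (Op V2 (b k) c)) :
    ∃ κ : Ω → C → C, Measurable (fun p : Ω × C => κ p.1 p.2) ∧
      (∀ c, Function.Injective (κ c)) ∧
      (∀ c y y', y ≠ y' → ∀ k, (κ c y, κ c y') ∈ Op V2 (b k) c) ∧
      ∀ c, ∀ᶠ u in residual C, u ∉ range (κ c) := by
  classical
  obtain ⟨T, hTm, hT⟩ := exists_sequence b hb hd
  -- lengths
  have hlen : ∀ n c s, n ≤ (T n c s).length := by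
    intro n c
    induction n with
    | zero => intro s; exact Nat.zero_le _
    | succ n ih =>
      intro s
      have h1 := (hT n c).1 s
      have h2 := h1.length_le
      have h3 := ih (ini s)
      simp only [List.length_append, List.length_cons, List.length_nil] at h2
      omega
  have hchain1 : ∀ n c y, T n c (res y n) <+: T (n + 1) c (res y (n + 1)) := by
    intro n c y
    have h1 := (hT n c).1 (res y (n + 1))
    rw [ini_res] at h1
    exact (List.prefix_append _ _).trans h1
  have hchain : ∀ c y n m, n ≤ m → T n c (res y n) <+: T m c (res y m) := by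
    intro c y n m hnm
    induction m, hnm using Nat.le_induction with
    | base => exact List.prefix_rfl
    | succ m _ ih => exact ih.trans (hchain1 m c y)
  set κ : Ω → C → C := fun c y m => (T (m + 1) c (res y (m + 1))).getD m false with hκ
  have hmem : ∀ c y n, κ c y ∈ cyl (T n c (res y n)) := by
    intro c y n i hi
    have h1 := hchain c y n (max n (i + 1)) (le_max_left _ _)
    have h2 := hchain c y (i + 1) (max n (i + 1)) (le_max_right _ _)
    have h3 : i < (T (i + 1) c (res y (i + 1))).length := lt_of_lt_of_le (Nat.lt_succ_self i)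
      (hlen (i + 1) c _)
    simp only [hκ]
    rw [List.getD_eq_getElem _ _ h3]
    rw [h1.getElem hi, h2.getElem h3]
  have hincomp : ∀ n c (s t : Fin n → Bool), s ≠ t → Disjoint (cyl (T n c s)) (cyl (T n c t)) := by
    intro n c
    induction n with
    | zero => intro s t hst; exact absurd (Subsingleton.elim s t) hst
    | succ n ih =>
      intro s t hst
      have hs := (hT n c).1 s
      have ht := (hT n c).1 t
      by_cases hini : ini s = ini t
      · have hlast : s (Fin.last n) ≠ t (Fin.last n) := by
          intro h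
          apply hst
          funext i
          refine Fin.lastCases h (fun j => ?_) i
          exact congrFun hini j
        rw [Set.disjoint_left]
        intro u hu hu'
        have h1 := cyl_mono hs hu ((T n c (ini s)).length + 1) (by simp)
        have h2 := cyl_mono ht hu' ((T n c (ini s)).length + 1) (by simp [hini])
        rw [List.getElem_append_right (by omega)] at h1
        have h3 : (T n c (ini t)).length ≤ (T n c (ini s)).length + 1 := by rw [hini]; omega
        rw [List.getElem_append_right h3] at h2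
        simp only [add_tsub_cancel_left, List.getElem_cons_succ, List.getElem_cons_zero] at h1
        have h4 : (T n c (ini s)).length + 1 - (T n c (ini t)).length = 1 := by rw [hini]; omega
        simp only [h4, List.getElem_cons_succ, List.getElem_cons_zero] at h2
        exact hlast (h1.symm.trans h2)
      · have h1 : cyl (T (n + 1) c s) ⊆ cyl (T n c (ini s)) :=
          cyl_mono ((List.prefix_append _ _).trans hs)
        have h2 : cyl (T (n + 1) c t) ⊆ cyl (T n c (ini t)) :=
          cyl_mono ((List.prefix_append _ _).trans ht)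
        exact (ih (ini s) (ini t) hini).mono h1 h2
  have hres : ∀ y y' : C, y ≠ y' → ∃ N, ∀ n ≥ N, res y n ≠ res y' n := by
    intro y y' hne
    obtain ⟨i, hi⟩ := Function.ne_iff.1 hne
    refine ⟨i + 1, ?_⟩
    intro n hn h
    exact hi (congrFun h ⟨i, by omega⟩)
  refine ⟨κ, ?_, ?_, ?_, ?_⟩
  · refine measurable_pi_iff.2 fun m => ?_
    refine measurable_to_bool ?_
    have : (fun p : Ω × C => κ p.1 p.2 m) ⁻¹' {true}
        = ⋃ t : St (m + 1), ⋃ s : Fin (m + 1) → Bool, ((Prod.fst ⁻¹' {c | T (m + 1) c = t}) ∩
          (Prod.snd ⁻¹' {y | res y (m + 1) = s}) ∩ {_p | (t s).getD m false = true}) := by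
      ext ⟨c, y⟩
      simp only [mem_preimage, mem_singleton_iff, hκ, mem_iUnion, mem_inter_iff, mem_ofPred_eq]
      constructor
      · intro h
        exact ⟨T (m + 1) c, res y (m + 1), ⟨rfl, rfl⟩, h⟩
      · rintro ⟨t, s, ⟨rfl, rfl⟩, h⟩
        exact h
    rw [this]
    refine MeasurableSet.iUnion fun t => MeasurableSet.iUnion fun s => ?_
    refine ((measurable_fst (hTm (m + 1) t)).inter (measurable_snd ?_)).inter (MeasurableSet.const _)
    have h2 : {y : C | res y (m + 1) = s} = ⋂ i : Fin (m + 1), (fun y : C => y i) ⁻¹' {s i} := by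
      ext y
      simp only [mem_ofPred_eq, mem_iInter, mem_preimage, mem_singleton_iff]
      exact ⟨fun h i => congrFun h i, fun h => funext h⟩
    rw [h2]
    exact MeasurableSet.iInter fun i => measurable_pi_apply _ (measurableSet_singleton _)
  · intro c y y' h
    by_contra hne
    obtain ⟨N, hN⟩ := hres y y' hne
    have h1 := hincomp N c _ _ (hN N le_rfl)
    rw [Set.disjoint_left] at h1
    exact h1 (hmem c y N) (h ▸ hmem c y' N)
  · intro c y y' hne k
    obtain ⟨N, hN⟩ := hres y y' hne
    set n := max N k with hn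
    obtain ⟨i, hi, hsub⟩ := (hT n c).2 (res y (n + 1)) (res y' (n + 1))
      (hN (n + 1) (le_trans (le_max_left _ _) (Nat.le_succ _))) k (le_max_right _ _)
    exact (mem_Op V2).2 ⟨i, hi, hsub ⟨hmem c y (n + 1), hmem c y' (n + 1)⟩⟩
  · intro c
    set O : Set C := {u | ∃ σ, u ∈ cyl σ ∧ Disjoint (cyl σ) (range (κ c))} with hO
    have hOo : IsOpen O := by
      have : O = ⋃ σ : List Bool, ⋃ _ : Disjoint (cyl σ) (range (κ c)), cyl σ := by
        ext u
        simp only [hO, mem_ofPred_eq, mem_iUnion, exists_prop]
        exact ⟨fun ⟨σ, h1, h2⟩ => ⟨σ, h2, h1⟩, fun ⟨σ, h1, h2⟩ => ⟨σ, h2, h1⟩⟩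
      rw [this]
      exact isOpen_iUnion fun σ => isOpen_iUnion fun _ => isOpen_cyl σ
    have hOd : Dense O := by
      rw [basis_cyl.dense_iff]
      rintro _ ⟨σ, rfl⟩ _
      by_cases hdis : Disjoint (cyl σ) (range (κ c))
      · obtain ⟨u, hu⟩ := nonempty_cyl σ
        exact ⟨u, hu, σ, hu, hdis⟩
      · rw [Set.not_disjoint_iff] at hdis
        obtain ⟨_, hσ, ⟨y, rfl⟩⟩ := hdis
        set n := σ.length with hn
        have hpre : σ <+: T n c (res y n) := by
          have h1 : σ <+: pre (κ c y) (T n c (res y n)).length := prefix_pre hσ (hlen n c _)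
          have h2 : T n c (res y n) <+: pre (κ c y) (T n c (res y n)).length :=
            prefix_pre (hmem c y n) le_rfl
          have h3 : T n c (res y n) = pre (κ c y) (T n c (res y n)).length :=
            h2.eq_of_length (by rw [length_pre])
          rw [← h3] at h1
          exact h1
        obtain ⟨u, hu⟩ := nonempty_cyl (T n c (res y n) ++ [true])
        refine ⟨u, cyl_mono (hpre.trans (List.prefix_append _ _)) hu, _, hu, ?_⟩
        rw [Set.disjoint_left]
        rintro _ hz ⟨y', rfl⟩
        have hz' : κ c y' ∈ cyl (T n c (res y n)) := cyl_mono (List.prefix_append _ _) hz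
        have heq : res y n = res y' n := by
          by_contra hne
          exact (Set.disjoint_left.1 (hincomp n c _ _ hne)) hz' (hmem c y' n)
        have h1 := (hT n c).1 (res y' (n + 1))
        rw [ini_res, ← heq] at h1
        have h2 := cyl_mono h1 (hmem c y' (n + 1)) (T n c (res y n)).length (by simp)
        have h3 := hz (T n c (res y n)).length (by simp)
        rw [List.getElem_append_right (le_refl _)] at h2 h3
        simp only [tsub_self, List.getElem_cons_zero] at h2 h3
        rw [h2] at h3
        exact absurd h3 (by decide)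
    filter_upwards [residual_of_dense_open hOo hOd] with u hu hur
    obtain ⟨σ, h1, h2⟩ := hu
    exact (Set.disjoint_left.1 h2) h1 hur

end Pool.Agent.X219.FS
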