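import Mathlib
import Pool.Agent.H65R4.KU

set_option autoImplicit false

open Set Filter Topology

namespace Pool.Agent.X219.GJ

section

variable {G H : Type} [Group G] [Group H]

/-- The relation of the iterated jump over the two point space. -/
def R2 (α β : H → G → Bool) : Prop :=
  ∃ h : H, ∀ k : H, ∃ g : G, ∀ l : G, α (h⁻¹ * k) (g⁻¹ * l) = β k l

/-- coordinatewise translation -/
def tr (g : H → G) (α : H → G → Bool) : H → G → Bool := fun k l => α k ((g k)⁻¹ * l)

/-- translation on the coordinates in `S`, the second point elsewhere -/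
noncomputable def mix (S : Finset H) (s : H → G) (α β : H → G → Bool) : H → G → Bool :=
  open Classical in fun k => if k ∈ S then fun l => α k ((s k)⁻¹ * l) else β k

theorem tr_rel (g : H → G) (α : H → G → Bool) : R2 α (tr g α) :=
  ⟨1, fun k => ⟨g k, fun l => by simp [tr]⟩⟩

theorem continuous_shift (a : G) : Continuous (fun u : G → Bool => fun l => u (a⁻¹ * l)) :=
  continuous_pi fun l => continuous_apply (a⁻¹ * l)

/-- the homeomorphism behind `mix` -/
noncomputable def mixHomeo (S : Finset H) (s : H → G) :
    ((H → G → Bool) × (H → G → Bool)) ≃ₜ ((H → G → Bool) × (H → G → Bool)) where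
  toFun p := open Classical in
    (fun k => if k ∈ S then p.2 k else p.1 k, mix S s p.1 p.2)
  invFun p := open Classical in
    (fun k => if k ∈ S then (fun l => p.2 k ((s k) * l)) else p.1 k,
      fun k => if k ∈ S then p.1 k else p.2 k)
  left_inv := by
    rintro ⟨α, β⟩
    classical
    ext k l
    · by_cases hk : k ∈ S <;> simp [mix, hk]
    · by_cases hk : k ∈ S <;> simp [mix, hk]
  right_inv := by
    rintro ⟨α, β⟩
    classical
    ext k l
    · by_cases hk : k ∈ S <;> simp [hk]
    · by_cases hk : k ∈ S <;> simp [mix, hk]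
  continuous_toFun := by
    classical
    refine Continuous.prodMk ?_ ?_
    · refine continuous_pi fun k => ?_
      by_cases hk : k ∈ S
      · simp only [hk, if_true]
        exact (continuous_apply k).comp continuous_snd
      · simp only [hk, if_false]
        exact (continuous_apply k).comp continuous_fst
    · refine continuous_pi fun k => ?_
      by_cases hk : k ∈ S
      · simp only [mix, hk, if_true]
        exact (continuous_shift (s k)).comp ((continuous_apply k).comp continuous_fst)
      · simp only [mix, hk, if_false]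
        exact (continuous_apply k).comp continuous_snd
  continuous_invFun := by
    classical
    refine Continuous.prodMk ?_ ?_
    · refine continuous_pi fun k => ?_
      by_cases hk : k ∈ S
      · simp only [hk, if_true]
        have := (continuous_shift (s k)⁻¹).comp
          ((continuous_apply k).comp (continuous_snd (X := H → G → Bool) (Y := H → G → Bool)))
        simpa [Function.comp_def] using this
      · simp only [hk, if_false]
        exact (continuous_apply k).comp continuous_fst
    · refine continuous_pi fun k => ?_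
      by_cases hk : k ∈ S
      · simp only [hk, if_true]
        exact (continuous_apply k).comp continuous_fst
      · simp only [hk, if_false]
        exact (continuous_apply k).comp continuous_snd

theorem mix_continuous (S : Finset H) (s : H → G) :
    Continuous (fun p : (H → G → Bool) × (H → G → Bool) => mix S s p.1 p.2) :=
  continuous_snd.comp (mixHomeo S s).continuous

theorem mix_isOpenMap (S : Finset H) (s : H → G) :
    IsOpenMap (fun p : (H → G → Bool) × (H → G → Bool) => mix S s p.1 p.2) :=
  isOpenMap_snd.comp (mixHomeo S s).isOpenMap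

variable [TopologicalSpace G] [DiscreteTopology G]

theorem tr_continuous : Continuous (fun p : (H → G) × (H → G → Bool) => tr p.1 p.2) := by
  refine continuous_pi fun k => continuous_pi fun l => ?_
  have h1 : Continuous (fun q : G × (G → Bool) => q.2 (q.1⁻¹ * l)) := by
    rw [continuous_prod_of_discrete_left]
    intro a
    exact continuous_apply (a⁻¹ * l)
  have h2 : Continuous (fun p : (H → G) × (H → G → Bool) => ((p.1 k, p.2 k) : G × (G → Bool))) := by
    fun_prop
  exact h1.comp h2

/-- the homeomorphism behind `tr` -/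
def trHomeo : ((H → G) × (H → G → Bool)) ≃ₜ ((H → G) × (H → G → Bool)) where
  toFun p := (p.1, tr p.1 p.2)
  invFun p := (p.1, tr (fun k => (p.1 k)⁻¹) p.2)
  left_inv := by
    rintro ⟨g, α⟩
    ext k l
    · rfl
    · simp [tr]
  right_inv := by
    rintro ⟨g, α⟩
    ext k l
    · rfl
    · simp [tr]
  continuous_toFun := continuous_fst.prodMk tr_continuous
  continuous_invFun := by
    refine continuous_fst.prodMk ?_
    have h1 : Continuous (fun g : H → G => fun k => (g k)⁻¹) :=
      continuous_pi fun k => (continuous_of_discreteTopology (f := fun a : G => a⁻¹)).comp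
        (continuous_apply k)
    exact tr_continuous.comp ((h1.comp continuous_fst).prodMk continuous_snd)

theorem tr_isOpenMap : IsOpenMap (fun p : (H → G) × (H → G → Bool) => tr p.1 p.2) :=
  isOpenMap_snd.comp trHomeo.isOpenMap

end

/-- A Borel map into a space with a countable basis is continuous on a comeagre set; we only need
that its fibres are relatively closed there. -/
theorem closed_fibres {P Z : Type} [TopologicalSpace P] [TopologicalSpace Z] [T1Space Z]
    [SecondCountableTopology Z] (f : P → Z) (hf : @Measurable P Z (borel P) (borel Z) f) :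
    ∃ C : Set P, C ∈ residual P ∧ ∀ z, ∀ β ∈ C, β ∈ closure {γ | γ ∈ C ∧ f γ = z} → f β = z := by
  have h1 : ∀ V ∈ TopologicalSpace.countableBasis Z, ∃ U : Set P, IsOpen U ∧
      ∀ᶠ γ in residual P, (γ ∈ f ⁻¹' V ↔ γ ∈ U) := by
    intro V hV
    have hVo : IsOpen V := TopologicalSpace.isOpen_of_mem_countableBasis hV
    letI : MeasurableSpace P := borel P
    haveI : BorelSpace P := ⟨rfl⟩
    have hm : MeasurableSet (f ⁻¹' V) := by
      apply hf
      exact MeasurableSpace.measurableSet_generateFrom hVo
    obtain ⟨U, hU, hUe⟩ := hm.residualEq_isOpen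
    refine ⟨U, hU, ?_⟩
    filter_upwards [hUe] with γ hγ
    exact iff_of_eq hγ
  choose! U hUo hU using h1
  refine ⟨{γ | ∀ V ∈ TopologicalSpace.countableBasis Z, (γ ∈ f ⁻¹' V ↔ γ ∈ U V)}, ?_, ?_⟩
  · have := (eventually_countable_ball (l := residual P)
      (TopologicalSpace.countable_countableBasis Z)
      (p := fun γ V _ => (γ ∈ f ⁻¹' V ↔ γ ∈ U V))).2 hU
    exact this
  · intro z β hβ hcl
    by_contra hne
    have hopen : IsOpen ({z}ᶜ : Set Z) := isOpen_compl_singleton
    obtain ⟨V, hV, hβV, hVsub⟩ :=
      (TopologicalSpace.isBasis_countableBasis Z).exists_subset_of_mem_open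
        (show f β ∈ ({z}ᶜ : Set Z) from hne) hopen
    have hβU : β ∈ U V := (hβ V hV).1 hβV
    rw [mem_closure_iff] at hcl
    obtain ⟨γ, hγU, hγC, hγz⟩ := hcl (U V) (hUo V hV) hβU
    have : γ ∈ f ⁻¹' V := (hγC V hV).2 hγU
    have h2 : z ∈ V := by rw [← hγz]; exact this
    exact hVsub h2 rfl

section

variable {G H : Type} [Group G] [Group H] [Countable G] [Countable H] [Infinite G] [Infinite H]

theorem flip_open {I : Type} [Infinite I] (q : I → Bool) :
    Dense ({q}ᶜ : Set (I → Bool)) := by
  classical
  rw [dense_iff_inter_open]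
  intro U hU hne
  obtain ⟨u, hu⟩ := hne
  by_cases huq : u = q
  · obtain ⟨J, w, hw, hsub⟩ := isOpen_pi_iff.1 hU u hu
    obtain ⟨l, hl⟩ := Infinite.exists_notMem_finset J
    refine ⟨Function.update u l (!(u l)), hsub ?_, ?_⟩
    · intro i hi
      have : i ≠ l := by rintro rfl; exact hl hi
      rw [Function.update_of_ne this]
      exact (hw i hi).2
    · intro h
      have h' : Function.update u l (!(u l)) = q := h
      rw [← huq] at h'
      have := congrFun h' l
      simp at this
  · exact ⟨u, hu, huq⟩

theorem coord_avoid (Q : Set (G → Bool)) (hQ : Q.Countable) (k₀ : H) :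
    ∀ᶠ β in residual (H → G → Bool), β k₀ ∉ Q := by
  have h1 : ∀ᶠ u in residual (G → Bool), ∀ q ∈ Q, u ≠ q := by
    rw [eventually_countable_ball hQ]
    intro q _
    exact residual_of_dense_open isOpen_compl_singleton (flip_open q)
  have h2 := (tendsto_residual_of_isOpenMap (continuous_apply k₀)
    (isOpenMap_eval k₀ : IsOpenMap (fun β : H → G → Bool => β k₀))).eventually h1
  filter_upwards [h2] with β hβ hm
  exact hβ _ hm rfl

/-- generic points have dense orbits in every coordinate -/
theorem dense_orbits :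
    ∀ᶠ α in residual (H → G → Bool), ∀ k : H, ∀ U : Set (G → Bool), IsOpen U → U.Nonempty →
      ∃ g : G, (fun l => α k (g⁻¹ * l)) ∈ U := by
  classical
  have h0 : ∀ᶠ u in residual (G → Bool), ∀ T p : Finset G,
      ∃ g : G, ∀ l ∈ T, u (g⁻¹ * l) = decide (l ∈ p) := by
    rw [eventually_countable_forall]
    intro T
    rw [eventually_countable_forall]
    intro p
    have hset : {u : G → Bool | ∃ g : G, ∀ l ∈ T, u (g⁻¹ * l) = decide (l ∈ p)}
        = ⋃ g : G, ⋂ l ∈ T, {u : G → Bool | u (g⁻¹ * l) = decide (l ∈ p)} := by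
      ext u; simp
    have hopen : IsOpen {u : G → Bool | ∃ g : G, ∀ l ∈ T, u (g⁻¹ * l) = decide (l ∈ p)} := by
      rw [hset]
      refine isOpen_iUnion fun g => isOpen_biInter_finset fun l _ => ?_
      exact (isOpen_discrete ({decide (l ∈ p)} : Set Bool)).preimage
        (continuous_apply (A := fun _ : G => Bool) (g⁻¹ * l))
    have hdense : Dense {u : G → Bool | ∃ g : G, ∀ l ∈ T, u (g⁻¹ * l) = decide (l ∈ p)} := by
      rw [dense_iff_inter_open]
      intro U hU hne
      obtain ⟨u, hu⟩ := hne
      obtain ⟨J, w, hw, hsub⟩ := isOpen_pi_iff.1 hU u hu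
      -- a translate of `T` missing `J`
      obtain ⟨g, hg⟩ := Infinite.exists_notMem_finset
        ((T ×ˢ J).image (fun q : G × G => q.1 * q.2⁻¹))
      refine ⟨fun l => if l ∈ J then u l else decide (g * l ∈ p), hsub ?_, g, ?_⟩
      · intro i hi
        have hi' : i ∈ J := hi
        simp only [hi', if_true]
        exact (hw i hi).2
      · intro l hl
        have : g⁻¹ * l ∉ J := by
          intro hJ
          apply hg
          rw [Finset.mem_image]
          exact ⟨(l, g⁻¹ * l), Finset.mem_product.2 ⟨hl, hJ⟩, by simp⟩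
        simp [this]
    exact residual_of_dense_open hopen hdense
  rw [eventually_countable_forall]
  intro k
  have h2 := (tendsto_residual_of_isOpenMap (continuous_apply k)
    (isOpenMap_eval k : IsOpenMap (fun β : H → G → Bool => β k))).eventually h0
  filter_upwards [h2] with α hα U hU hne
  obtain ⟨u, hu⟩ := hne
  obtain ⟨J, w, hw, hsub⟩ := isOpen_pi_iff.1 hU u hu
  obtain ⟨g, hg⟩ := hα J (J.filter (fun l => u l = true))
  refine ⟨g, hsub ?_⟩
  intro i hi
  have hi' : i ∈ J := hi
  have h3 : α k (g⁻¹ * i) = u i := by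
    rw [hg i hi']
    simp [hi']
  show α k (g⁻¹ * i) ∈ w i
  rw [h3]
  exact (hw i hi).2

theorem core {Z : Type} [TopologicalSpace Z] [T1Space Z] [SecondCountableTopology Z]
    (F : Z → Z → Prop) (hF : ∀ z, {z' | F z z'}.Countable)
    (f : (H → G → Bool) → Z) (hf : @Measurable _ Z (borel _) (borel Z) f)
    (hred : ∀ α β : H → G → Bool, R2 α β ↔ F (f α) (f β)) : False := by
  classical
  letI : TopologicalSpace G := ⊥
  haveI : DiscreteTopology G := ⟨rfl⟩
  haveI : BaireSpace (H → G) := by
    letI := TopologicalSpace.upgradeIsCompletelyMetrizable (H → G)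
    infer_instance
  obtain ⟨C, hC, hCcl⟩ := closed_fibres f hf
  -- generic translations
  have hA1 : ∀ᶠ α in residual (H → G → Bool), ∀ᶠ g in residual (H → G), tr g α ∈ C := by
    have h1 : ∀ᶠ p in residual ((H → G) × (H → G → Bool)), tr p.1 p.2 ∈ C :=
      (tendsto_residual_of_isOpenMap tr_continuous tr_isOpenMap).eventually hC
    have h2 : ∀ᶠ p in residual ((H → G → Bool) × (H → G)), tr p.2 p.1 ∈ C :=
      (tendsto_residual_of_isOpenMap continuous_swap
        (Homeomorph.prodComm (H → G → Bool) (H → G)).isOpenMap).eventually h1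
    have h3 := Pool.Agent.H65R4.ku_meagre
      (M := {p : (H → G → Bool) × (H → G) | ¬ tr p.2 p.1 ∈ C}) (by
        rw [IsMeagre]
        filter_upwards [h2] with p hp hcon
        exact hcon hp)
    filter_upwards [h3] with α hα
    rw [IsMeagre] at hα
    filter_upwards [hα] with g hg
    by_contra hcon
    exact hg hcon
  have hA2 : ∀ᶠ α in residual (H → G → Bool), ∀ S : Finset H, ∀ s : S → G,
      ∀ᶠ β in residual (H → G → Bool),
        mix S (fun k => if hk : k ∈ S then s ⟨k, hk⟩ else 1) α β ∈ C := by
    rw [eventually_countable_forall]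
    intro S
    rw [eventually_countable_forall]
    intro s
    have h1 : ∀ᶠ p in residual ((H → G → Bool) × (H → G → Bool)),
        mix S (fun k => if hk : k ∈ S then s ⟨k, hk⟩ else 1) p.1 p.2 ∈ C :=
      (tendsto_residual_of_isOpenMap (mix_continuous S _) (mix_isOpenMap S _)).eventually hC
    have h3 := Pool.Agent.H65R4.ku_meagre
      (M := {p : (H → G → Bool) × (H → G → Bool) |
        ¬ mix S (fun k => if hk : k ∈ S then s ⟨k, hk⟩ else 1) p.1 p.2 ∈ C}) (by
        rw [IsMeagre]
        filter_upwards [h1] with p hp hcon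
        exact hcon hp)
    filter_upwards [h3] with α hα
    rw [IsMeagre] at hα
    filter_upwards [hα] with g hg
    by_contra hcon
    exact hg hcon
  have hA3 := dense_orbits (G := G) (H := H)
  have hne : (∀ᶠ α in residual (H → G → Bool), _) := hA1.and (hA2.and hA3)
  obtain ⟨α, hα1, hα2, hα3⟩ := (dense_of_mem_residual hne).nonempty
  -- a value taken on a somewhere dense set of translations
  obtain ⟨z, hzF, hz⟩ : ∃ z, F (f α) z ∧
      (interior (closure {g : H → G | tr g α ∈ C ∧ f (tr g α) = z})).Nonempty := by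
    by_contra hcon
    push Not at hcon
    have h1 : ∀ᶠ g in residual (H → G), ∀ z ∈ {z' | F (f α) z'},
        ¬ (tr g α ∈ C ∧ f (tr g α) = z) := by
      rw [eventually_countable_ball (hF (f α))]
      intro z hz
      have h2 : IsNowhereDense {g : H → G | tr g α ∈ C ∧ f (tr g α) = z} := by
        rw [IsNowhereDense]
        exact hcon z hz
      exact h2.isMeagre
    obtain ⟨g, hg1, hg2⟩ := (dense_of_mem_residual (h1.and hα1)).nonempty
    exact hg1 (f (tr g α)) ((hred _ _).1 (tr_rel g α)) ⟨hg2, rfl⟩
  obtain ⟨g₀, hg₀⟩ := hz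
  obtain ⟨S, w, hw, hsub⟩ := isOpen_pi_iff.1 isOpen_interior g₀ hg₀
  have hSsub : ∀ g : H → G, (∀ k ∈ S, g k = g₀ k) →
      g ∈ closure {g : H → G | tr g α ∈ C ∧ f (tr g α) = z} := by
    intro g hg
    apply interior_subset
    apply hsub
    intro k hk
    rw [hg k hk]
    exact (hw k hk).2
  -- mixtures are limits of translations
  have hlim : ∀ β : H → G → Bool,
      mix S (fun k => if hk : k ∈ S then (fun k : S => g₀ k) ⟨k, hk⟩ else 1) α β
        ∈ closure {γ | γ ∈ C ∧ f γ = z} := by
    intro β
    set μ := mix S (fun k => if hk : k ∈ S then (fun k : S => g₀ k) ⟨k, hk⟩ else 1) α β with hμ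
    rw [mem_closure_iff]
    intro O hO hμO
    obtain ⟨I, u, hu, huO⟩ := isOpen_pi_iff.1 hO μ hμO
    have hch : ∀ k : H, ∃ a : G, (k ∈ S → a = g₀ k) ∧
        (k ∈ I → (fun l => α k (a⁻¹ * l)) ∈ u k) := by
      intro k
      by_cases hkS : k ∈ S
      · refine ⟨g₀ k, fun _ => rfl, ?_⟩
        intro hkI
        have h1 := (hu k hkI).2
        have h2 : μ k = fun l => α k ((g₀ k)⁻¹ * l) := by
          rw [hμ]
          simp [mix, hkS]
        rw [h2] at h1
        exact h1
      · by_cases hkI : k ∈ I
        · obtain ⟨a, ha⟩ := hα3 k (u k) (hu k hkI).1 ⟨μ k, (hu k hkI).2⟩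
          exact ⟨a, fun h => absurd h hkS, fun _ => ha⟩
        · exact ⟨1, fun h => absurd h hkS, fun h => absurd h hkI⟩
    choose g₁ hg₁S hg₁I using hch
    have hcl := hSsub g₁ hg₁S
    have hcont : Continuous (fun g : H → G => tr g α) :=
      tr_continuous.comp (continuous_id.prodMk continuous_const)
    have hmem : g₁ ∈ (fun g : H → G => tr g α) ⁻¹' O := by
      apply huO
      intro k hk
      exact hg₁I k hk
    rw [mem_closure_iff] at hcl
    obtain ⟨g, hgO, hgC, hgz⟩ := hcl _ (hO.preimage hcont) hmem
    exact ⟨tr g α, hgO, hgC, hgz⟩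
  obtain ⟨k₀, hk₀⟩ := Infinite.exists_notMem_finset S
  have hcount : ({v : G → Bool | ∃ h : H, ∃ g : G, v = fun l => α (h⁻¹ * k₀) (g⁻¹ * l)}).Countable := by
    have : {v : G → Bool | ∃ h : H, ∃ g : G, v = fun l => α (h⁻¹ * k₀) (g⁻¹ * l)}
        = Set.range (fun q : H × G => fun l => α (q.1⁻¹ * k₀) (q.2⁻¹ * l)) := by
      ext v
      constructor
      · rintro ⟨h, g, rfl⟩
        exact ⟨(h, g), rfl⟩
      · rintro ⟨⟨h, g⟩, rfl⟩
        exact ⟨h, g, rfl⟩
    rw [this]
    exact Set.countable_range _
  obtain ⟨β, hβ1, hβ2⟩ := (dense_of_mem_residual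
    ((hα2 S (fun k : S => g₀ k)).and (coord_avoid _ hcount k₀))).nonempty
  have hfz := hCcl z _ hβ1 (hlim β)
  have hrel : R2 α (mix S (fun k => if hk : k ∈ S then (fun k : S => g₀ k) ⟨k, hk⟩ else 1) α β) := by
    rw [hred, hfz]
    exact hzF
  obtain ⟨h, hh⟩ := hrel
  obtain ⟨g, hg⟩ := hh k₀
  apply hβ2
  refine ⟨h, g, ?_⟩
  funext l
  rw [hg l]
  simp [mix, hk₀]

end

end Pool.Agent.X219.GJ
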