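import Mathlib

set_option autoImplicit false
open Classical

namespace Pool.Agent.X219.TG

variable {M M' : Type} 

/-- the sum of the values of `Γ` over the pairs of `e` whose first entry is on side `b`
and whose second entry is on the other side -/
noncomputable def wtb (side : M → Bool) (Γ : M → M → ZMod 2) (b : Bool) (e : Finset M) : ZMod 2 :=
  ∑ u ∈ e.filter (fun u => side u = b), ∑ v ∈ e.filter (fun v => side v = !b), Γ u v

/-- hyperedges of the three-graph of `Γ` -/
def IsH (side : M → Bool) (Γ : M → M → ZMod 2) (e : Finset M) : Prop :=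
  (∀ b, (e.filter (fun u => side u = b)).card = 2) ∧ wtb side Γ false e = 1

theorem wtb_swap {side : M → Bool} {Γ : M → M → ZMod 2}
    (hs : ∀ u v, side u ≠ side v → Γ u v = Γ v u) (e : Finset M) (b : Bool) :
    wtb side Γ b e = wtb side Γ false e := by
  cases b with
  | false => rfl
  | true =>
    unfold wtb
    rw [Finset.sum_comm]
    refine Finset.sum_congr (by simp) ?_
    intro u hu
    refine Finset.sum_congr (by simp) ?_
    intro v hv
    apply hs
    simp only [Finset.mem_filter, Bool.not_false] at hu hv
    rw [hu.2, hv.2]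
    decide

theorem filter_image_side {side : M → Bool} {side' : M' → Bool} {e : Finset M} {p : M → M'}
    {β : Bool} (hp : ∀ x ∈ e, side' (p x) = xor (side x) β) (b : Bool) :
    (e.image p).filter (fun u => side' u = xor b β) = (e.filter (fun u => side u = b)).image p := by
  rw [Finset.filter_image]
  congr 1
  apply Finset.filter_congr
  intro x hx
  rw [hp x hx]
  cases side x <;> cases b <;> cases β <;> simp

theorem two_smul_zmod (n : ℕ) (hn : n = 2) (x : ZMod 2) : n • x = 0 := by
  subst hn
  rw [two_nsmul]
  exact CharTwo.add_self_eq_zero x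

theorem wtb_image {side : M → Bool} {side' : M' → Bool} {Γ : M → M → ZMod 2}
    {Γ' : M' → M' → ZMod 2} {e : Finset M} {p : M → M'} {β : Bool} {s : M → ZMod 2}
    (hinj : Set.InjOn p (e : Set M))
    (hp : ∀ x ∈ e, side' (p x) = xor (side x) β)
    (hΓ : ∀ x ∈ e, ∀ y ∈ e, side x ≠ side y → Γ' (p x) (p y) = Γ x y + s x + s y)
    (hc : ∀ b, (e.filter (fun u => side u = b)).card = 2) (b : Bool) :
    wtb side' Γ' (xor b β) (e.image p) = wtb side Γ b e := by
  unfold wtb
  have hb : (!(xor b β)) = xor (!b) β := by cases b <;> cases β <;> rfl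
  rw [hb, filter_image_side hp, filter_image_side hp, Finset.sum_image]
  · have h1 : ∀ u ∈ e.filter (fun u => side u = b),
        ∑ v ∈ (e.filter (fun v => side v = !b)).image p, Γ' (p u) v
          = ∑ v ∈ e.filter (fun v => side v = !b), (Γ u v + s u + s v) := by
      intro u hu
      rw [Finset.sum_image]
      · apply Finset.sum_congr rfl
        intro v hv
        simp only [Finset.mem_filter] at hu hv
        apply hΓ u hu.1 v hv.1
        rw [hu.2, hv.2]
        cases b <;> decide
      · intro x hx y hy hxy
        simp only [Finset.coe_filter, Set.mem_ofPred_eq] at hx hy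
        exact hinj hx.1 hy.1 hxy
    rw [Finset.sum_congr rfl h1]
    simp only [Finset.sum_add_distrib, Finset.sum_const]
    rw [two_smul_zmod _ (hc b)]
    have h2 : ∑ x ∈ e.filter (fun u => side u = b), (e.filter (fun v => side v = !b)).card • s x = 0 := by
      apply Finset.sum_eq_zero
      intro x _
      exact two_smul_zmod _ (hc (!b)) _
    rw [h2]
    simp
  · intro x hx y hy hxy
    simp only [Finset.coe_filter, Set.mem_ofPred_eq] at hx hy
    exact hinj hx.1 hy.1 hxy

theorem card_image_side {side : M → Bool} {side' : M' → Bool} {e : Finset M} {p : M → M'}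
    {β : Bool} (hinj : Set.InjOn p (e : Set M))
    (hp : ∀ x ∈ e, side' (p x) = xor (side x) β) :
    (∀ b, (e.filter (fun u => side u = b)).card = 2) ↔
      (∀ b, ((e.image p).filter (fun u => side' u = b)).card = 2) := by
  have key : ∀ b, ((e.image p).filter (fun u => side' u = xor b β)).card
      = (e.filter (fun u => side u = b)).card := by
    intro b
    rw [filter_image_side hp, Finset.card_image_of_injOn]
    intro x hx y hy hxy
    simp only [Finset.coe_filter, Set.mem_ofPred_eq] at hx hy
    exact hinj hx.1 hy.1 hxy
  constructor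
  · intro h b
    have := key (xor b β)
    rw [h] at this
    have hb : xor (xor b β) β = b := by cases b <;> cases β <;> rfl
    rwa [hb] at this
  · intro h b
    rw [← key, h]

theorem isH_image {side : M → Bool} {side' : M' → Bool} {Γ : M → M → ZMod 2}
    {Γ' : M' → M' → ZMod 2} {e : Finset M} {p : M → M'} {β : Bool} {s : M → ZMod 2}
    (hs' : ∀ u v, side' u ≠ side' v → Γ' u v = Γ' v u)
    (hinj : Set.InjOn p (e : Set M))
    (hp : ∀ x ∈ e, side' (p x) = xor (side x) β)
    (hΓ : ∀ x ∈ e, ∀ y ∈ e, side x ≠ side y → Γ' (p x) (p y) = Γ x y + s x + s y) :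
    IsH side Γ e ↔ IsH side' Γ' (e.image p) := by
  unfold IsH
  rw [← card_image_side hinj hp]
  constructor
  · rintro ⟨h1, h2⟩
    refine ⟨h1, ?_⟩
    rw [← wtb_swap hs' _ (xor false β), wtb_image hinj hp hΓ h1, h2]
  · rintro ⟨h1, h2⟩
    refine ⟨h1, ?_⟩
    rw [← wtb_swap hs' _ (xor false β), wtb_image hinj hp hΓ h1] at h2
    exact h2

/-- The condition that every hyperedge has two vertices in each class. -/
def Ax3 (side : M → Bool) (H : Finset (Finset M)) : Prop :=
  ∀ e ∈ H, e.card = 4 ∧ ∀ v ∈ e, (e.filter (fun w => side v = side w)).card = 2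

theorem card_split (side : M → Bool) (e : Finset M) (b : Bool) :
    (e.filter (fun u => side u = b)).card + (e.filter (fun u => side u = !b)).card = e.card := by
  have h := Finset.card_filter_add_card_filter_not (s := e) (fun u => side u = b)
  rw [← h]
  congr 2
  apply Finset.filter_congr
  intro x _
  cases side x <;> cases b <;> simp

theorem ax3_cards {side : M → Bool} {H : Finset (Finset M)} (h : Ax3 side H) {e : Finset M}
    (he : e ∈ H) (b : Bool) : (e.filter (fun u => side u = b)).card = 2 := by
  obtain ⟨h4, h2⟩ := h e he
  have hsp := card_split side e b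
  have key : ∀ b', (e.filter (fun u => side u = b')).Nonempty →
      (e.filter (fun u => side u = b')).card = 2 := by
    rintro b' ⟨v, hv⟩
    simp only [Finset.mem_filter] at hv
    have := h2 v hv.1
    rw [← this]
    congr 1
    apply Finset.filter_congr
    intro x _
    rw [hv.2]
    exact eq_comm
  rcases (e.filter (fun u => side u = b)).eq_empty_or_nonempty with h0 | h0
  · rw [h0, Finset.card_empty, zero_add] at hsp
    have h1 : (e.filter (fun u => side u = !b)).Nonempty := by
      rw [← Finset.card_pos]; omega
    have := key _ h1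
    omega
  · exact key b h0

theorem isH_ax3 {side : M → Bool} {e : Finset M}
    (he : ∀ b, (e.filter (fun u => side u = b)).card = 2) :
    e.card = 4 ∧ ∀ v ∈ e, (e.filter (fun w => side v = side w)).card = 2 := by
  constructor
  · rw [← card_split side e false, he, he]
  · intro v _
    rw [← he (side v)]
    congr 1
    apply Finset.filter_congr
    intro x _
    exact eq_comm

theorem filter_sub_card {side : M → Bool} {H : Finset (Finset M)} (h : Ax3 side H)
    {S : Finset M} {b : Bool}
    (hP : (S.filter (fun u => side u = b)).card = 3)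
    (hQ : (S.filter (fun u => side u = !b)).card = 2) :
    ((H.filter (fun e => e ⊆ S)).card : ZMod 2)
      = ∑ t ∈ S.filter (fun u => side u = b), if S.erase t ∈ H then 1 else 0 := by
  have hS : S.card = 5 := by rw [← card_split side S b, hP, hQ]
  have heq : H.filter (fun e => e ⊆ S)
      = ((S.filter (fun u => side u = b)).filter (fun t => S.erase t ∈ H)).image
          (fun t => S.erase t) := by
    ext e
    simp only [Finset.mem_filter, Finset.mem_image]
    constructor
    · rintro ⟨he, hsub⟩
      have h4 := (h e he).1
      have hex : ∃ t ∈ S, t ∉ e := by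
        by_contra hcon
        push Not at hcon
        have := Finset.card_le_card hcon
        omega
      obtain ⟨t, htS, hte⟩ := hex
      have hEq : e = S.erase t := by
        apply Finset.eq_of_subset_of_card_le
        · intro x hx
          exact Finset.mem_erase.2 ⟨fun hxt => hte (hxt ▸ hx), hsub hx⟩
        · rw [Finset.card_erase_of_mem htS, hS, h4]
      have htb : side t = b := by
        by_contra hne
        have h2 := ax3_cards h he b
        have : e.filter (fun u => side u = b) = S.filter (fun u => side u = b) := by
          rw [hEq]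
          ext x
          simp only [Finset.mem_filter, Finset.mem_erase]
          constructor
          · rintro ⟨⟨_, hx⟩, hxb⟩; exact ⟨hx, hxb⟩
          · rintro ⟨hx, hxb⟩
            refine ⟨⟨?_, hx⟩, hxb⟩
            rintro rfl
            exact hne hxb
        rw [this] at h2
        omega
      exact ⟨t, ⟨⟨htS, htb⟩, hEq ▸ he⟩, hEq.symm⟩
    · rintro ⟨t, ⟨⟨htS, htb⟩, hH⟩, rfl⟩
      exact ⟨hH, Finset.erase_subset _ _⟩
  rw [heq, Finset.card_image_of_injOn]
  · rw [Finset.card_filter]
    push_cast
    rfl
  · intro x hx y hy hxy
    simp only [Finset.coe_filter, Set.mem_ofPred_eq, Finset.mem_filter] at hx hy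
    exact Finset.erase_injOn S hx.1.1 hy.1.1 hxy

theorem zmod2_cases (x : ZMod 2) : x = 0 ∨ x = 1 := by
  fin_cases x
  · left; rfl
  · right; rfl

theorem zmod2_ite (x : ZMod 2) : (if x = 1 then (1 : ZMod 2) else 0) = x := by
  rcases zmod2_cases x with h | h <;> subst h <;> simp

theorem isH_parity [Fintype M] {side : M → Bool} {Γ : M → M → ZMod 2}
    (hs : ∀ u v, side u ≠ side v → Γ u v = Γ v u)
    (S : Finset M) (hS : S.card = 5)
    (h3 : ∀ v ∈ S, (S.filter (fun w => side v = side w)).card ≤ 3) :
    Even (((Finset.univ : Finset (Finset M)).filter (fun e => IsH side Γ e)).filter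
      (fun e => e ⊆ S)).card := by
  have hle : ∀ b, (S.filter (fun u => side u = b)).card ≤ 3 := by
    intro b
    rcases (S.filter (fun u => side u = b)).eq_empty_or_nonempty with h0 | ⟨v, hv⟩
    · rw [h0]; simp
    · simp only [Finset.mem_filter] at hv
      have := h3 v hv.1
      convert this using 3
      rename_i w
      rw [hv.2]
      exact eq_comm
  have hsum := card_split side S false
  have hF := hle false
  have hT := hle true
  simp only [Bool.not_false] at hsum
  have hex : ∃ b, (S.filter (fun u => side u = b)).card = 3 ∧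
      (S.filter (fun u => side u = !b)).card = 2 := by
    by_cases h : (S.filter (fun u => side u = false)).card = 3
    · exact ⟨false, h, by simp only [Bool.not_false]; omega⟩
    · refine ⟨true, by omega, by simp only [Bool.not_true]; omega⟩
  obtain ⟨b, hP, hQ⟩ := hex
  have hax : Ax3 side ((Finset.univ : Finset (Finset M)).filter (fun e => IsH side Γ e)) := by
    intro e he
    simp only [Finset.mem_filter, Finset.mem_univ, true_and] at he
    exact isH_ax3 he.1
  rw [← ZMod.natCast_eq_zero_iff_even, filter_sub_card hax hP hQ]
  have hterm : ∀ t ∈ S.filter (fun u => side u = b),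
      (if S.erase t ∈ (Finset.univ : Finset (Finset M)).filter (fun e => IsH side Γ e)
        then (1 : ZMod 2) else 0)
      = (∑ u ∈ S.filter (fun u => side u = b), ∑ v ∈ S.filter (fun v => side v = !b), Γ u v)
        - ∑ v ∈ S.filter (fun v => side v = !b), Γ t v := by
    intro t ht
    have ht' := ht
    simp only [Finset.mem_filter] at ht
    have e1 : (S.erase t).filter (fun u => side u = b)
        = (S.filter (fun u => side u = b)).erase t := by
      rw [Finset.filter_erase]
    have e2 : (S.erase t).filter (fun u => side u = !b)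
        = S.filter (fun u => side u = !b) := by
      rw [Finset.filter_erase]
      apply Finset.erase_eq_of_notMem
      simp only [Finset.mem_filter, not_and]
      intro _
      rw [ht.2]
      cases b <;> decide
    have hcards : ∀ b', ((S.erase t).filter (fun u => side u = b')).card = 2 := by
      intro b'
      by_cases hbb : b' = b
      · subst hbb
        rw [e1, Finset.card_erase_of_mem ht', hP]
      · have : b' = !b := by cases b <;> cases b' <;> simp_all
        subst this
        rw [e2, hQ]
    have hw : wtb side Γ false (S.erase t)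
        = (∑ u ∈ S.filter (fun u => side u = b), ∑ v ∈ S.filter (fun v => side v = !b), Γ u v)
        - ∑ v ∈ S.filter (fun v => side v = !b), Γ t v := by
      rw [← wtb_swap hs _ b]
      unfold wtb
      rw [e1, e2, ← Finset.sum_erase_add _ _ ht']
      ring
    rw [← hw, ← zmod2_ite (wtb side Γ false (S.erase t))]
    have hiff : (S.erase t ∈ (Finset.univ : Finset (Finset M)).filter (fun e => IsH side Γ e))
        ↔ wtb side Γ false (S.erase t) = 1 := by
      rw [Finset.mem_filter]
      exact ⟨fun h => h.2.2, fun h => ⟨Finset.mem_univ _, hcards, h⟩⟩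
    simp only [hiff]
  rw [Finset.sum_congr rfl hterm, Finset.sum_sub_distrib, Finset.sum_const, hP, succ_nsmul,
    add_sub_cancel_right]
  exact two_smul_zmod 2 rfl _


theorem four_filter {side : M → Bool} {b : Bool} {x x' y y' : M} (hx : side x = b)
    (hx' : side x' = b) (hy : side y = !b) (hy' : side y' = !b) :
    ({x, x', y, y'} : Finset M).filter (fun u => side u = b) = {x, x'} := by
  have hb : ¬ ((!b) = b) := by cases b <;> decide
  rw [Finset.filter_insert, Finset.filter_insert, Finset.filter_insert, Finset.filter_singleton,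
    if_pos hx, if_pos hx', hy, hy', if_neg hb, if_neg hb]
  simp

theorem four_filter' {side : M → Bool} {b : Bool} {x x' y y' : M} (hx : side x = b)
    (hx' : side x' = b) (hy : side y = !b) (hy' : side y' = !b) :
    ({x, x', y, y'} : Finset M).filter (fun u => side u = !b) = {y, y'} := by
  have hb : ¬ (b = (!b)) := by cases b <;> decide
  rw [Finset.filter_insert, Finset.filter_insert, Finset.filter_insert, Finset.filter_singleton,
    if_pos hy, if_pos hy', hx, hx', if_neg hb, if_neg hb]

theorem four_cards {side : M → Bool} {b : Bool} {x x' y y' : M} (hx : side x = b)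
    (hx' : side x' = b) (hy : side y = !b) (hy' : side y' = !b) (hxx : x ≠ x') (hyy : y ≠ y')
    (b' : Bool) :
    (({x, x', y, y'} : Finset M).filter (fun u => side u = b')).card = 2 := by
  by_cases h : b' = b
  · subst h
    rw [four_filter hx hx' hy hy', Finset.card_pair hxx]
  · have h' : b' = !b := by cases b <;> cases b' <;> simp_all
    subst h'
    rw [four_filter' hx hx' hy hy', Finset.card_pair hyy]

theorem wtb_four {side : M → Bool} {Γ : M → M → ZMod 2} {b : Bool} {x x' y y' : M}
    (hx : side x = b) (hx' : side x' = b) (hy : side y = !b) (hy' : side y' = !b)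
    (hxx : x ≠ x') (hyy : y ≠ y') :
    wtb side Γ b {x, x', y, y'} = Γ x y + Γ x y' + (Γ x' y + Γ x' y') := by
  unfold wtb
  rw [four_filter hx hx' hy hy', four_filter' hx hx' hy hy', Finset.sum_pair hxx,
    Finset.sum_pair hyy, Finset.sum_pair hyy]

/-- indicator of a hyperedge -/
noncomputable def hh (H : Finset (Finset M)) (x x' y y' : M) : ZMod 2 :=
  if x ≠ x' ∧ y ≠ y' ∧ ({x, x', y, y'} : Finset M) ∈ H then 1 else 0

/-- The parity condition. -/
def Ax4 (side : M → Bool) (H : Finset (Finset M)) : Prop :=
  ∀ S : Finset M, S.card = 5 → (∀ v ∈ S, (S.filter (fun w => side v = side w)).card ≤ 3) →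
    Even (H.filter (fun e => e ⊆ S)).card

theorem hh_symm (H : Finset (Finset M)) (x x' y y' : M) : hh H x x' y y' = hh H x' x y y' := by
  unfold hh
  have : ({x, x', y, y'} : Finset M) = {x', x, y, y'} := by
    ext z; simp only [Finset.mem_insert, Finset.mem_singleton]; tauto
  rw [this]
  congr 1
  apply propext
  constructor <;> rintro ⟨h1, h2, h3⟩ <;> exact ⟨Ne.symm h1, h2, h3⟩

theorem hh_swap (H : Finset (Finset M)) (x x' y y' : M) : hh H x x' y y' = hh H y y' x x' := by
  unfold hh
  have : ({x, x', y, y'} : Finset M) = {y, y', x, x'} := by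
    ext z; simp only [Finset.mem_insert, Finset.mem_singleton]; tauto
  rw [this]
  congr 1
  apply propext
  tauto

theorem hh_self (H : Finset (Finset M)) (x y y' : M) : hh H x x y y' = 0 := by
  unfold hh
  simp

theorem hh_self' (H : Finset (Finset M)) (x x' y : M) : hh H x x' y y = 0 := by
  unfold hh
  simp

theorem add_self2 (x : ZMod 2) : x + x = 0 := CharTwo.add_self_eq_zero x

theorem hh_cocycle {side : M → Bool} {H : Finset (Finset M)} (h3 : Ax3 side H)
    (h4 : Ax4 side H) {b : Bool} {x₁ x₂ x₃ y y' : M} (h₁ : side x₁ = b) (h₂ : side x₂ = b)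
    (h₃ : side x₃ = b) (hy : side y = !b) (hy' : side y' = !b) :
    hh H x₁ x₂ y y' + hh H x₂ x₃ y y' + hh H x₁ x₃ y y' = 0 := by
  by_cases hyy : y = y'
  · subst hyy; simp [hh_self']
  by_cases h12 : x₁ = x₂
  · subst h12; rw [hh_self, zero_add]; exact add_self2 _
  by_cases h23 : x₂ = x₃
  · subst h23; rw [hh_self, add_zero]; exact add_self2 _
  by_cases h13 : x₁ = x₃
  · subst h13; rw [hh_self, add_zero, hh_symm H x₂]; exact add_self2 _
  have hb : ¬ ((!b) = b) := by cases b <;> decide
  have hne : ∀ {u v : M}, side u = b → side v = !b → u ≠ v := by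
    intro u v hu hv huv
    rw [huv, hv] at hu
    exact hb hu
  have h1y := hne h₁ hy
  have h1y' := hne h₁ hy'
  have h2y := hne h₂ hy
  have h2y' := hne h₂ hy'
  have h3y := hne h₃ hy
  have h3y' := hne h₃ hy'
  set S : Finset M := {x₁, x₂, x₃, y, y'} with hSdef
  have hP : S.filter (fun u => side u = b) = {x₁, x₂, x₃} := by
    rw [hSdef, Finset.filter_insert, Finset.filter_insert, Finset.filter_insert,
      Finset.filter_insert, Finset.filter_singleton, if_pos h₁, if_pos h₂, if_pos h₃, hy, hy',
      if_neg hb, if_neg hb]
    simp
  have hQ : S.filter (fun u => side u = !b) = {y, y'} := by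
    have hb' : ¬ (b = (!b)) := by cases b <;> decide
    rw [hSdef, Finset.filter_insert, Finset.filter_insert, Finset.filter_insert,
      Finset.filter_insert, Finset.filter_singleton, h₁, h₂, h₃, if_pos hy, if_pos hy',
      if_neg hb', if_neg hb', if_neg hb']
  have hPc : (S.filter (fun u => side u = b)).card = 3 := by
    rw [hP]
    rw [Finset.card_insert_of_notMem, Finset.card_pair h23]
    simp [h12, h13]
  have hQc : (S.filter (fun u => side u = !b)).card = 2 := by
    rw [hQ, Finset.card_pair hyy]
  have hSc : S.card = 5 := by rw [← card_split side S b, hPc, hQc]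
  have hle : ∀ v ∈ S, (S.filter (fun w => side v = side w)).card ≤ 3 := by
    intro v _
    have hcomm : S.filter (fun w => side v = side w) = S.filter (fun w => side w = side v) := by
      apply Finset.filter_congr
      intro w _
      exact eq_comm
    rw [hcomm]
    by_cases hv : side v = b
    · rw [hv, hPc]
    · have : side v = !b := by cases b <;> cases h : side v <;> simp_all
      rw [this, hQc]
      omega
  have heven := h4 S hSc hle
  rw [← ZMod.natCast_eq_zero_iff_even, filter_sub_card h3 hPc hQc, hP] at heven
  rw [Finset.sum_insert (by simp [h12, h13]), Finset.sum_pair h23] at heven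
  have e1 : S.erase x₁ = {x₂, x₃, y, y'} := by
    rw [hSdef]
    rw [Finset.erase_insert]
    simp [h12, h13, h1y, h1y']
  have e2 : S.erase x₂ = {x₁, x₃, y, y'} := by
    rw [hSdef, Finset.insert_comm x₁ x₂, Finset.erase_insert]
    simp [Ne.symm h12, h23, h2y, h2y']
  have e3 : S.erase x₃ = {x₁, x₂, y, y'} := by
    rw [hSdef, Finset.insert_comm x₂ x₃, Finset.insert_comm x₁ x₃, Finset.erase_insert]
    simp [Ne.symm h13, Ne.symm h23, h3y, h3y']
  rw [e1, e2, e3] at heven
  unfold hh
  simp only [ne_eq, h12, not_false_eq_true, hyy, true_and, h23, h13]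
  refine Eq.trans ?_ heven
  ring

/-- The bipartite graph of a three-graph, from a base point on each side. -/
noncomputable def Gam (side : M → Bool) (H : Finset (Finset M)) (a d : M) (x y : M) : ZMod 2 :=
  if side x = false then hh H x a y d else hh H y a x d

theorem Gam_symm {side : M → Bool} (H : Finset (Finset M)) (a d : M) (x y : M)
    (h : side x ≠ side y) : Gam side H a d x y = Gam side H a d y x := by
  unfold Gam
  cases hx : side x <;> cases hy : side y <;> simp_all

theorem hh_expand {side : M → Bool} {H : Finset (Finset M)} (h3 : Ax3 side H)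
    (h4 : Ax4 side H) {a d : M} (ha : side a = false) (hd : side d = true)
    {x x' y y' : M} (hx : side x = false) (hx' : side x' = false) (hy : side y = true)
    (hy' : side y' = true) :
    hh H x x' y y' = Gam side H a d x y + Gam side H a d x y'
      + (Gam side H a d x' y + Gam side H a d x' y') := by
  unfold Gam
  rw [if_pos hx, if_pos hx, if_pos hx', if_pos hx']
  have c1 := hh_cocycle h3 h4 (b := false) hx ha hx' hy hy'
  have c2 := hh_cocycle h3 h4 (b := true) hy hd hy' hx ha
  have c3 := hh_cocycle h3 h4 (b := true) hy hd hy' hx' ha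
  rw [hh_symm H a x'] at c1
  rw [← hh_swap H x a y d, ← hh_swap H x a d y', ← hh_swap H x a y y'] at c2
  rw [← hh_swap H x' a y d, ← hh_swap H x' a d y', ← hh_swap H x' a y y'] at c3
  have s1 : hh H x a d y' = hh H x a y' d := by
    rw [hh_swap H x a d y', hh_symm, ← hh_swap]
  have s2 : hh H x' a d y' = hh H x' a y' d := by
    rw [hh_swap H x' a d y', hh_symm, ← hh_swap]
  rw [s1] at c2
  rw [s2] at c3
  clear s1 s2
  generalize hh H x x' y y' = A at *
  generalize hh H x a y y' = B at *
  generalize hh H x' a y y' = C at *
  generalize hh H x a y d = D at *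
  generalize hh H x a y' d = E at *
  generalize hh H x' a y d = F at *
  generalize hh H x' a y' d = G at *
  clear * - c1 c2 c3
  revert A B C D E F G
  decide

theorem repr {side : M → Bool} {H : Finset (Finset M)} (h3 : Ax3 side H)
    (h4 : Ax4 side H) : ∃ Γ : M → M → ZMod 2, (∀ x y, side x ≠ side y → Γ x y = Γ y x) ∧
      ∀ e, e ∈ H ↔ IsH side Γ e := by
  by_cases hex : ∃ a d : M, side a = false ∧ side d = true
  · obtain ⟨a, d, ha, hd⟩ := hex
    refine ⟨Gam side H a d, Gam_symm H a d, ?_⟩
    intro e
    have key : (∀ b, (e.filter (fun u => side u = b)).card = 2) →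
        (e ∈ H ↔ wtb side (Gam side H a d) false e = 1) := by
      intro hc
      obtain ⟨x, x', hxx, hxe⟩ := Finset.card_eq_two.1 (hc false)
      obtain ⟨y, y', hyy, hye⟩ := Finset.card_eq_two.1 (hc true)
      have hx : x ∈ e.filter (fun u => side u = false) := by rw [hxe]; simp
      have hx' : x' ∈ e.filter (fun u => side u = false) := by rw [hxe]; simp
      have hy : y ∈ e.filter (fun u => side u = true) := by rw [hye]; simp
      have hy' : y' ∈ e.filter (fun u => side u = true) := by rw [hye]; simp
      simp only [Finset.mem_filter] at hx hx' hy hy'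
      have he : e = {x, x', y, y'} := by
        ext z
        constructor
        · intro hz
          cases hzs : side z with
          | false =>
            have : z ∈ e.filter (fun u => side u = false) := by simp [hz, hzs]
            rw [hxe] at this
            simp only [Finset.mem_insert, Finset.mem_singleton] at this ⊢
            tauto
          | true =>
            have : z ∈ e.filter (fun u => side u = true) := by simp [hz, hzs]
            rw [hye] at this
            simp only [Finset.mem_insert, Finset.mem_singleton] at this ⊢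
            tauto
        · intro hz
          simp only [Finset.mem_insert, Finset.mem_singleton] at hz
          rcases hz with rfl | rfl | rfl | rfl
          · exact hx.1
          · exact hx'.1
          · exact hy.1
          · exact hy'.1
      rw [he, wtb_four (b := false) hx.2 hx'.2 hy.2 hy'.2 hxx hyy,
        ← hh_expand h3 h4 ha hd hx.2 hx'.2 hy.2 hy'.2]
      unfold hh
      simp [hxx, hyy]
    constructor
    · intro he
      exact ⟨ax3_cards h3 he, (key (ax3_cards h3 he)).1 he⟩
    · intro he
      exact (key he.1).2 he.2
  · refine ⟨fun _ _ => 0, fun _ _ _ => rfl, ?_⟩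
    intro e
    have key : ¬ (∀ b, (e.filter (fun u => side u = b)).card = 2) := by
      intro hc
      have h0 : (e.filter (fun u => side u = false)).Nonempty := by
        rw [← Finset.card_pos, hc]; omega
      have h1 : (e.filter (fun u => side u = true)).Nonempty := by
        rw [← Finset.card_pos, hc]; omega
      obtain ⟨a, ha⟩ := h0
      obtain ⟨d, hd⟩ := h1
      simp only [Finset.mem_filter] at ha hd
      exact hex ⟨a, d, ha.2, hd.2⟩
    constructor
    · intro he
      exact absurd (ax3_cards h3 he) key
    · intro he
      exact absurd he.1 key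

theorem isH_image' [inst : DecidableEq M'] {side : M → Bool} {side' : M' → Bool}
    {Γ : M → M → ZMod 2}
    {Γ' : M' → M' → ZMod 2} {e : Finset M} {p : M → M'} {β : Bool} {s : M → ZMod 2}
    (hs' : ∀ u v, side' u ≠ side' v → Γ' u v = Γ' v u)
    (hinj : Set.InjOn p (e : Set M))
    (hp : ∀ x ∈ e, side' (p x) = xor (side x) β)
    (hΓ : ∀ x ∈ e, ∀ y ∈ e, side x ≠ side y → Γ' (p x) (p y) = Γ x y + s x + s y) :
    IsH side Γ e ↔ IsH side' Γ' (e.image p) := by
  have h : inst = fun a b => propDecidable (a = b) := Subsingleton.elim _ _
  subst h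
  exact isH_image hs' hinj hp hΓ

/-- A partial automorphism changes the bipartite graph by a switching. -/
theorem partial_switch {side : M → Bool} {Γ : M → M → ZMod 2}
    (hs : ∀ x y, side x ≠ side y → Γ x y = Γ y x) (S : Finset M) (p : M → M)
    (hinj : Set.InjOn p (S : Set M)) {β : Bool} (hp : ∀ x ∈ S, side (p x) = xor (side x) β)
    (hH : ∀ e ⊆ S, IsH side Γ e ↔ IsH side Γ (e.image p)) :
    ∃ s : M → ZMod 2, ∀ x ∈ S, ∀ y ∈ S, side x ≠ side y →
      Γ (p x) (p y) = Γ x y + s x + s y := by
  have key : ∀ x ∈ S, ∀ x' ∈ S, ∀ y ∈ S, ∀ y' ∈ S, side x = false → side x' = false →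
      side y = true → side y' = true →
      (Γ (p x) (p y) + Γ x y) + (Γ (p x) (p y') + Γ x y') + (Γ (p x') (p y) + Γ x' y)
        + (Γ (p x') (p y') + Γ x' y') = 0 := by
    intro x hx x' hx' y hy y' hy' cx cx' cy cy'
    by_cases hxx : x = x'
    · subst hxx
      generalize Γ (p x) (p y) + Γ x y = A
      generalize Γ (p x) (p y') + Γ x y' = B
      revert A B
      decide
    by_cases hyy : y = y'
    · subst hyy
      generalize Γ (p x) (p y) + Γ x y = A
      generalize Γ (p x') (p y) + Γ x' y = B
      revert A B
      decide
    have hsub : ({x, x', y, y'} : Finset M) ⊆ S := by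
      intro z hz
      simp only [Finset.mem_insert, Finset.mem_singleton] at hz
      rcases hz with rfl | rfl | rfl | rfl <;> assumption
    have h := hH _ hsub
    have hpx : p x ≠ p x' := fun hh => hxx (hinj hx hx' hh)
    have hpy : p y ≠ p y' := fun hh => hyy (hinj hy hy' hh)
    have dx : side (p x) = xor false β := by rw [hp x hx, cx]
    have dx' : side (p x') = xor false β := by rw [hp x' hx', cx']
    have hbb : (!(xor false β)) = xor true β := by cases β <;> rfl
    have dy : side (p y) = !(xor false β) := by rw [hbb, hp y hy, cy]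
    have dy' : side (p y') = !(xor false β) := by rw [hbb, hp y' hy', cy']
    have himg : ({x, x', y, y'} : Finset M).image p = {p x, p x', p y, p y'} := by
      simp [Finset.image_insert]
    rw [himg] at h
    unfold IsH at h
    have c1 : ∀ b, (({x, x', y, y'} : Finset M).filter (fun u => side u = b)).card = 2 :=
      four_cards (b := false) cx cx' cy cy' hxx hyy
    have c2 : ∀ b, (({p x, p x', p y, p y'} : Finset M).filter (fun u => side u = b)).card = 2 :=
      four_cards dx dx' dy dy' hpx hpy
    rw [← wtb_swap hs _ (xor false β)] at h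
    rw [← wtb_swap hs _ (xor false β), wtb_four dx dx' dy dy' hpx hpy,
      wtb_swap hs _ (xor false β), wtb_four (b := false) cx cx' cy cy' hxx hyy] at h
    simp only [c1, c2, implies_true, true_and] at h
    generalize Γ (p x) (p y) = A at *
    generalize Γ (p x) (p y') = B at *
    generalize Γ (p x') (p y) = C at *
    generalize Γ (p x') (p y') = D at *
    generalize Γ x y = A' at *
    generalize Γ x y' = B' at *
    generalize Γ x' y = C' at *
    generalize Γ x' y' = D' at *
    clear * - h
    revert A B C D A' B' C' D'
    decide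
  by_cases hex : ∃ x₀ ∈ S, ∃ y₀ ∈ S, side x₀ = false ∧ side y₀ = true
  · obtain ⟨x₀, hx₀, y₀, hy₀, cx₀, cy₀⟩ := hex
    refine ⟨fun z => if side z = false then Γ (p z) (p y₀) + Γ z y₀
      else (Γ (p x₀) (p z) + Γ x₀ z) + (Γ (p x₀) (p y₀) + Γ x₀ y₀), ?_⟩
    have main : ∀ x ∈ S, ∀ y ∈ S, side x = false → side y = true →
        Γ (p x) (p y) = Γ x y + (Γ (p x) (p y₀) + Γ x y₀)
          + ((Γ (p x₀) (p y) + Γ x₀ y) + (Γ (p x₀) (p y₀) + Γ x₀ y₀)) := by
      intro x hx y hy cx cy
      have h := key x hx x₀ hx₀ y hy y₀ hy₀ cx cx₀ cy cy₀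
      generalize Γ (p x) (p y) = A at *
      generalize Γ (p x) (p y₀) + Γ x y₀ = B at *
      generalize Γ (p x₀) (p y) + Γ x₀ y = C at *
      generalize Γ (p x₀) (p y₀) + Γ x₀ y₀ = D at *
      generalize Γ x y = A' at *
      clear * - h
      revert A B C D A'
      decide
    intro x hx y hy hxy
    cases cx : side x with
    | false =>
      have cy : side y = true := by
        cases h : side y
        · rw [cx, h] at hxy; exact absurd rfl hxy
        · rfl
      simp only [cx, cy, if_true, Bool.true_eq_false, if_false]
      exact main x hx y hy cx cy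
    | true =>
      have cy : side y = false := by
        cases h : side y
        · rfl
        · rw [cx, h] at hxy; exact absurd rfl hxy
      simp only [cx, cy, if_true, Bool.true_eq_false, if_false]
      have hp1 : side (p x) ≠ side (p y) := by
        rw [hp x hx, hp y hy, cx, cy]
        cases β <;> decide
      rw [hs _ _ hp1, hs _ _ hxy, main y hy x hx cy cx]
      ring
  · refine ⟨fun _ => 0, ?_⟩
    intro x hx y hy hxy
    exfalso
    apply hex
    cases cx : side x with
    | false =>
      have cy : side y = true := by
        cases h : side y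
        · rw [cx, h] at hxy; exact absurd rfl hxy
        · rfl
      exact ⟨x, hx, y, hy, cx, cy⟩
    | true =>
      have cy : side y = false := by
        cases h : side y
        · rfl
        · rw [cx, h] at hxy; exact absurd rfl hxy
      exact ⟨y, hy, x, hx, cy, cx⟩


/-- The vertex set of the extension, over `Fin n`. -/
abbrev W (n : ℕ) : Type := Bool × Fin n × (Fin n → ZMod 2)

/-- The extension of a partial automorphism. -/
def theta {n : ℕ} (β : Bool) (φ : Bool → Fin n ≃ Fin n) (f : Bool → Fin n → Fin n → ZMod 2)
    (w : W n) : W n :=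
  (xor w.1 β, φ w.1 w.2.1, fun z => w.2.2 ((φ (!w.1)).symm z) + f w.1 w.2.1 ((φ (!w.1)).symm z))

theorem theta_injective {n : ℕ} (β : Bool) (φ : Bool → Fin n ≃ Fin n)
    (f : Bool → Fin n → Fin n → ZMod 2) : Function.Injective (theta β φ f) := by
  rintro ⟨b, x, χ⟩ ⟨b', x', χ'⟩ h
  simp only [theta, Prod.mk.injEq] at h
  obtain ⟨h1, h2, h3⟩ := h
  have hb : b = b' := by cases b <;> cases b' <;> cases β <;> simp_all
  subst hb
  have hx : x = x' := (φ b).injective h2
  subst hx
  have hχ : χ = χ' := by
    funext y
    have := congrFun h3 (φ (!b) y)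
    simp only [Equiv.symm_apply_apply, add_left_inj] at this
    exact this
  rw [hχ]

/-- The bipartite graph on the vertex set of the extension. -/
def GW {n : ℕ} (u v : W n) : ZMod 2 := u.2.2 v.2.1 + v.2.2 u.2.1

theorem GW_symm {n : ℕ} (u v : W n) : GW u v = GW v u := by
  unfold GW
  ring

theorem GW_theta {n : ℕ} (β : Bool) (φ : Bool → Fin n ≃ Fin n)
    (f : Bool → Fin n → Fin n → ZMod 2) (s : Bool → Fin n → ZMod 2)
    (hf : ∀ b x y, f b x y + f (!b) y x = s b x + s (!b) y) (u v : W n) (huv : u.1 ≠ v.1) :
    GW (theta β φ f u) (theta β φ f v) = GW u v + s u.1 u.2.1 + s v.1 v.2.1 := by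
  obtain ⟨b, x, χ⟩ := u
  obtain ⟨b', y, ξ⟩ := v
  have hb : b' = !b := by
    simp only [ne_eq] at huv
    cases b <;> cases b' <;> simp_all
  subst hb
  simp only [GW, theta, Bool.not_not, Equiv.symm_apply_apply]
  have := hf b x y
  linear_combination this

theorem exists_perm {n : ℕ} (T : Finset (Fin n)) (p : Fin n → Fin n)
    (h : Set.InjOn p (T : Set (Fin n))) : ∃ g : Fin n ≃ Fin n, ∀ x ∈ T, g x = p x := by
  obtain ⟨g, hg⟩ := Finset.exists_equiv_extend_of_card_eq (α := Fin n) (β := Fin n)
    (t := Finset.univ) (by simp) (s := T) (f := p) (by simp) h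
  refine ⟨g.trans (Equiv.subtypeUnivEquiv (by simp)), ?_⟩
  intro x hx
  simpa using hg x hx

theorem main (n : ℕ) (c : Fin n → Bool) (HA : Finset (Finset (Fin n)))
    (h3 : Ax3 c HA) (h4 : Ax4 c HA) :
    ∃ (m : ℕ) (cB : Fin m → Bool) (HB : Finset (Finset (Fin m))),
      Ax3 cB HB ∧ Ax4 cB HB ∧
        ∃ f : Fin n ↪ Fin m,
          (∀ x, cB (f x) = c x) ∧
          (∀ e : Finset (Fin n), e ∈ HA ↔ e.map f ∈ HB) ∧
          ∀ (S : Finset (Fin n)) (p : Fin n → Fin n),
            Set.InjOn p (S : Set (Fin n)) →
            (∀ x ∈ S, ∀ y ∈ S, c x = c y ↔ c (p x) = c (p y)) →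
            (∀ e ⊆ S, e ∈ HA ↔ e.image p ∈ HA) →
            ∃ σ : Fin m ≃ Fin m,
              (∀ x y, cB x = cB y ↔ cB (σ x) = cB (σ y)) ∧
              (∀ e : Finset (Fin m), e ∈ HB ↔ e.map σ.toEmbedding ∈ HB) ∧
              ∀ x ∈ S, σ (f x) = f (p x) := by
  obtain ⟨Γ, hΓs, hΓ⟩ := repr h3 h4
  set E : W n ≃ Fin (Fintype.card (W n)) := Fintype.equivFin (W n) with hE
  set cB : Fin (Fintype.card (W n)) → Bool := fun i => (E.symm i).1 with hcB
  set GB : Fin (Fintype.card (W n)) → Fin (Fintype.card (W n)) → ZMod 2 :=
    fun i j => GW (E.symm i) (E.symm j) with hGB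
  have hGBs : ∀ i j, cB i ≠ cB j → GB i j = GB j i := fun i j _ => GW_symm _ _
  -- the type of a vertex
  set χ : Fin n → Fin n → ZMod 2 := fun x y => if c x = false then Γ x y else 0 with hχ
  have hχΓ : ∀ x y, c x ≠ c y → χ x y + χ y x = Γ x y := by
    intro x y hxy
    simp only [hχ]
    cases cx : c x with
    | false =>
      cases cy : c y with
      | false => rw [cx, cy] at hxy; exact absurd rfl hxy
      | true => simp
    | true =>
      cases cy : c y with
      | false => simp only [Bool.true_eq_false, if_false, if_true, zero_add]; exact (hΓs x y hxy).symm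
      | true => rw [cx, cy] at hxy; exact absurd rfl hxy
  refine ⟨Fintype.card (W n), cB, Finset.univ.filter (fun e => IsH cB GB e), ?_, ?_, ?_⟩
  · intro e he
    simp only [Finset.mem_filter, Finset.mem_univ, true_and] at he
    exact isH_ax3 he.1
  · intro S hS hle
    exact isH_parity hGBs S hS hle
  · have hinj : Function.Injective (fun x : Fin n => E (c x, x, χ x)) := by
      intro x y hxy
      have := E.injective hxy
      simp only [Prod.mk.injEq] at this
      exact this.2.1
    refine ⟨⟨fun x => E (c x, x, χ x), hinj⟩, ?_, ?_, ?_⟩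
    · intro x
      simp [hcB]
    · intro e
      rw [hΓ, Finset.mem_filter, Finset.map_eq_image]
      simp only [Finset.mem_univ, true_and, Function.Embedding.coeFn_mk]
      refine isH_image' (β := false) (s := fun _ => 0) hGBs hinj.injOn ?_ ?_
      · intro x _
        simp [hcB]
      · intro x _ y _ hxy
        simp only [hGB, GW, Equiv.symm_apply_apply, add_zero]
        exact hχΓ x y hxy
    · intro S p hp hpc hpH
      -- the side flip
      obtain ⟨β, hβ⟩ : ∃ β : Bool, ∀ x ∈ S, c (p x) = xor (c x) β := by
        by_cases hS : S.Nonempty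
        · obtain ⟨x₀, hx₀⟩ := hS
          refine ⟨xor (c (p x₀)) (c x₀), ?_⟩
          intro x hx
          have := hpc x hx x₀ hx₀
          revert this
          cases c x <;> cases c (p x) <;> cases c x₀ <;> cases c (p x₀) <;> simp
        · refine ⟨false, ?_⟩
          intro x hx
          exact absurd ⟨x, hx⟩ hS
      obtain ⟨s, hs⟩ := partial_switch hΓs S p hp hβ (by
        intro e he
        rw [← hΓ, ← hΓ]
        convert hpH e he)
      -- the permutations
      have hφex : ∀ b : Bool, ∃ g : Fin n ≃ Fin n, ∀ x ∈ S.filter (fun x => c x = b), g x = p x := by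
        intro b
        apply exists_perm
        intro x hx y hy hxy
        simp only [Finset.coe_filter, Set.mem_ofPred_eq] at hx hy
        exact hp hx.1 hy.1 hxy
      choose φ hφ using hφex
      have hφ' : ∀ x ∈ S, φ (c x) x = p x := by
        intro x hx
        apply hφ
        simp [hx]
      -- the twist
      set f : Bool → Fin n → Fin n → ZMod 2 := fun b x y =>
        if x ∈ S ∧ c x = b then χ (p x) (φ (!b) y) + χ x y
        else if y ∈ S ∧ c y = !b then s x + s y + (χ (p y) (φ b x) + χ y x)
        else if b = false then s x + s y else 0 with hf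
      have hff : ∀ b x y, f b x y + f (!b) y x = s x + s y := by
        intro b x y
        simp only [hf, Bool.not_not]
        by_cases h1 : x ∈ S ∧ c x = b
        · by_cases h2 : y ∈ S ∧ c y = !b
          · rw [if_pos h1, if_pos h2]
            have hcxy : c x ≠ c y := by
              rw [h1.2, h2.2]; cases b <;> decide
            have e1 : φ (!b) y = p y := by rw [← h2.2]; exact hφ' y h2.1
            have e2 : φ b x = p x := by rw [← h1.2]; exact hφ' x h1.1
            have hcpxy : c (p x) ≠ c (p y) := by
              rw [hβ x h1.1, hβ y h2.1, h1.2, h2.2]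
              cases b <;> cases β <;> decide
            rw [e1, e2]
            have k1 := hχΓ x y hcxy
            have k2 := hχΓ (p x) (p y) hcpxy
            have k3 := hs x h1.1 y h2.1 hcxy
            have k4 := add_self2 (Γ x y)
            linear_combination k1 + k2 + k3 + k4
          · rw [if_pos h1, if_neg h2, if_pos h1]
            have k4 := add_self2 (χ (p x) (φ (!b) y) + χ x y)
            linear_combination k4
        · by_cases h2 : y ∈ S ∧ c y = !b
          · rw [if_neg h1, if_pos h2, if_pos h2]
            have k4 := add_self2 (χ (p y) (φ b x) + χ y x)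
            linear_combination k4
          · rw [if_neg h1, if_neg h2, if_neg h2, if_neg h1]
            cases b
            · simp
            · simp [add_comm]
      have hθ : Function.Bijective (theta β φ f) :=
        Finite.injective_iff_bijective.1 (theta_injective β φ f)
      refine ⟨E.symm.trans ((Equiv.ofBijective _ hθ).trans E), ?_, ?_, ?_⟩
      · intro i j
        simp only [hcB, Equiv.trans_apply, Equiv.symm_apply_apply, Equiv.ofBijective_apply, theta]
        cases (E.symm i).1 <;> cases (E.symm j).1 <;> cases β <;> simp
      · intro e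
        rw [Finset.mem_filter, Finset.mem_filter, Finset.map_eq_image]
        simp only [Finset.mem_univ, true_and, Equiv.coe_toEmbedding]
        refine isH_image' (β := β) (s := fun i => s (E.symm i).2.1) hGBs
          (Equiv.injective _).injOn ?_ ?_
        · intro i _
          simp [hcB, theta]
        · intro i _ j _ hij
          simp only [hGB, Equiv.trans_apply, Equiv.symm_apply_apply, Equiv.ofBijective_apply]
          exact GW_theta β φ f (fun _ => s) hff _ _ hij
      · intro x hx
        simp only [Function.Embedding.coeFn_mk, Equiv.trans_apply, Equiv.symm_apply_apply,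
          Equiv.ofBijective_apply, theta, EmbeddingLike.apply_eq_iff_eq, Prod.mk.injEq]
        refine ⟨(hβ x hx).symm, hφ' x hx, ?_⟩
        funext z
        simp only [hf]
        rw [if_pos ⟨hx, trivial⟩, Equiv.apply_symm_apply]
        have k4 := add_self2 (χ x ((φ (!c x)).symm z))
        linear_combination k4

end Pool.Agent.X219.TG
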